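import Mathlib

/-!
# Ten keyed bars (MP_ae4adf): definitions

The plane is `ℂ`.  Columns have width 4 and rows have height 4.  Every prototile is a bar
`0 ≤ x ≤ 4 * wid τ`, between its bottom and its top, which are horizontal lines at the heights `0` and
`4 * hei τ`, pushed down by triangular keys: in the middle of the `i`-th column the bottom is pushed down by
`dn τ i` (a tooth) and the top is pushed down by `up τ i` (a notch).
-/

set_option autoImplicit false

namespace Pool.Agent.R175.Sur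

open Set Complex

/-- The ten kinds of prototiles. -/
inductive Ty
  | A | B | C1 | C2 | Ca | Cb | D | E | R | S
  deriving DecidableEq

/-- The number of columns of a prototile. -/
def wid (N : ℤ) : Ty → ℤ
  | Ty.A => 4 * N + 5
  | Ty.B => 4 * N + 8
  | Ty.S => 2
  | _ => 1

/-- The number of rows of a prototile. -/
def hei : Ty → ℤ
  | Ty.D => 3
  | Ty.E => 3
  | Ty.R => 3
  | Ty.S => 3
  | _ => 1

/-- The depth of the notch in the top of column `i`. -/
noncomputable def up (N : ℤ) : Ty → ℤ → ℝ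
  | Ty.A, i => if i = 0 then 19 / 10 else if i = 2 * N + 2 then 7 / 5 else 0
  | Ty.B, i => if i = 2 * N + 3 then 8 / 5 else if i = 2 * N + 4 then 17 / 10 else
      if i = 4 * N + 7 then 2 else 0
  | Ty.C1, _ => 6 / 5
  | Ty.C2, _ => 13 / 10
  | Ty.Ca, _ => 6 / 5
  | Ty.Cb, _ => 13 / 10
  | Ty.D, _ => 3 / 2
  | Ty.E, _ => 13 / 10
  | Ty.R, _ => 6 / 5
  | Ty.S, i => if i = 0 then 9 / 5 else 0

/-- The depth of the tooth under column `i`. -/
noncomputable def dn (N : ℤ) : Ty → ℤ → ℝ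
  | Ty.A, i => if i = 2 * N + 2 then 3 / 2 else 13 / 10
  | Ty.B, i => if i = 2 * N + 2 then 9 / 5 else if i = 2 * N + 3 then 0 else 6 / 5
  | Ty.C1, _ => 0
  | Ty.C2, _ => 0
  | Ty.Ca, _ => 19 / 10
  | Ty.Cb, _ => 2
  | Ty.D, _ => 7 / 5
  | Ty.E, _ => 0
  | Ty.R, _ => 0
  | Ty.S, i => if i = 0 then 8 / 5 else 17 / 10

/-- The profile with the key of depth `k i` in the middle of the column `[4 i, 4 i + 4]`. -/
noncomputable def prof (k : ℤ → ℝ) (x : ℝ) : ℝ :=
  k ⌊x / 4⌋ * max 0 (1 - |x - 4 * ⌊x / 4⌋ - 2|)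

/-- The prototile of kind `τ`. -/
def Proto (N : ℤ) (τ : Ty) : Set ℂ :=
  {z | 0 ≤ z.re ∧ z.re ≤ 4 * wid N τ ∧ -prof (dn N τ) z.re ≤ z.im ∧
    z.im ≤ 4 * hei τ - prof (up N τ) z.re}

/-- The translation by `a + b i`. -/
noncomputable def shift (a b : ℝ) : ℂ ≃ᵢ ℂ := IsometryEquiv.addRight (⟨a, b⟩ : ℂ)

/-- The reflection `(x, y) ↦ (a - x, y + b)`. -/
noncomputable def flip (a b : ℝ) : ℂ ≃ᵢ ℂ :=
  (conjLIE.toIsometryEquiv.trans (LinearIsometryEquiv.neg ℝ (E := ℂ)).toIsometryEquiv).trans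
    (IsometryEquiv.addRight (⟨a, b⟩ : ℂ))

theorem shift_apply (a b : ℝ) (z : ℂ) : shift a b z = ⟨z.re + a, z.im + b⟩ := by
  apply Complex.ext <;> simp [shift]

theorem flip_apply (a b : ℝ) (z : ℂ) : flip a b z = ⟨a - z.re, z.im + b⟩ := by
  apply Complex.ext
  · simp [flip]; ring
  · simp [flip]

/-- The tiles of `F` are isometric copies of the ten prototiles with disjoint interiors that cover the plane. -/
structure Tlg (N : ℤ) (F : Set (Set ℂ)) : Prop where
  tile : ∀ T ∈ F, ∃ (τ : Ty) (g : ℂ ≃ᵢ ℂ), T = g '' Proto N τ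
  disj : ∀ T ∈ F, ∀ T' ∈ F, T ≠ T' → Disjoint (interior T) (interior T')
  cov : ∀ z : ℂ, ∃ T ∈ F, z ∈ T

/-- Part NT: every notch is filled by the tooth of the same depth of another tile, which is put in either by a
translation or by a reflection in the vertical line through the apex of the notch. -/
def StmForce : Prop :=
  ∀ (N : ℤ), 0 ≤ N → ∀ (F : Set (Set ℂ)), Tlg N F → ∀ (g : ℂ ≃ᵢ ℂ) (τ : Ty), g '' Proto N τ ∈ F →
    ∀ i : ℤ, 0 ≤ i → i < wid N τ → 0 < up N τ i →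
      ∃ (τ' : Ty) (i' : ℤ), 0 ≤ i' ∧ i' < wid N τ' ∧ dn N τ' i' = up N τ i ∧
        ((g * shift (4 * (i - i')) (4 * hei τ)) '' Proto N τ' ∈ F ∨
          (g * flip (4 * (i + i' + 1)) (4 * hei τ)) '' Proto N τ' ∈ F)

/-! ### The pattern -/

/-- The horizontal period. -/
def per (N : ℤ) : ℤ := 6 * N + 9

/-- The position of the bar `B` at level `t`, modulo the period. -/
def xt (N t : ℤ) : ℤ := 3 * N + 3 + t

/-- The depth of the key in column `c` of the curve that separates the rows `r - 1` and `r`. -/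
noncomputable def K (N : ℤ) (r c : ℤ) : ℝ :=
  if r % 4 = 0 then
    if xt N (r / 4) ≤ c % per N then dn N Ty.B (c % per N - xt N (r / 4))
    else if c % per N < N + 2 + r / 4 then dn N Ty.B (c % per N + per N - xt N (r / 4)) else 0
  else if r % 4 = 1 then
    if xt N (r / 4) ≤ c % per N then up N Ty.B (c % per N - xt N (r / 4))
    else if c % per N < N + 2 + r / 4 then up N Ty.B (c % per N + per N - xt N (r / 4)) else 0
  else if r % 4 = 2 then
    if c % per N < 4 * N + 5 then dn N Ty.A (c % per N) else 0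
  else
    if c % per N < 4 * N + 5 then up N Ty.A (c % per N) else 0

/-- The kind, the left column and the lowest row of the tile that contains the square `(c, r)`. -/
def rt (N : ℤ) (c r : ℤ) : Ty × ℤ × ℤ :=
  let m := c % per N
  let t := r / 4
  if r % 4 = 2 then
    if m < 4 * N + 5 then (Ty.A, c - m, 4 * t + 2)
    else if m = xt N t + (2 * N + 3) then (Ty.S, c, 4 * t + 1)
    else if m = xt N t + (2 * N + 4) then (Ty.S, c - 1, 4 * t + 1)
    else (Ty.R, c, 4 * t + 1)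
  else if r % 4 = 1 then
    if 4 * N + 5 ≤ m then
      if m = xt N t + (2 * N + 3) then (Ty.S, c, 4 * t + 1)
      else if m = xt N t + (2 * N + 4) then (Ty.S, c - 1, 4 * t + 1)
      else (Ty.R, c, 4 * t + 1)
    else if xt N t ≤ m then (Ty.C2, c, 4 * t + 1)
    else if m = N + 1 + t then (Ty.Cb, c, 4 * t + 1)
    else if m < N + 2 + t then (Ty.C2, c, 4 * t + 1)
    else if m = 2 * N + 2 then (Ty.D, c, 4 * t - 1)
    else (Ty.E, c, 4 * t - 1)
  else if r % 4 = 0 then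
    if xt N t ≤ m then (Ty.B, c - m + xt N t, 4 * t)
    else if m < N + 2 + t then (Ty.B, c - m + xt N t - per N, 4 * t)
    else if m = 2 * N + 2 then (Ty.D, c, 4 * t - 1)
    else (Ty.E, c, 4 * t - 1)
  else
    if 4 * N + 5 ≤ m then
      if m = xt N t + (2 * N + 3) then (Ty.S, c, 4 * t + 1)
      else if m = xt N t + (2 * N + 4) then (Ty.S, c - 1, 4 * t + 1)
      else (Ty.R, c, 4 * t + 1)
    else if xt N (t + 1) ≤ m then (Ty.C1, c, 4 * t + 3)
    else if m = 0 then (Ty.Ca, c, 4 * t + 3)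
    else if m < N + 2 + (t + 1) then (Ty.C1, c, 4 * t + 3)
    else if m = 2 * N + 2 then (Ty.D, c, 4 * t + 3)
    else (Ty.E, c, 4 * t + 3)

/-- Part RT: for the rows near `0`, `rt` describes a tiling of the squares by bars that match the keys `K`. -/
def StmRt : Prop :=
  ∀ N : ℤ, 1 ≤ N → ∀ c r : ℤ, -4 * N + 2 ≤ r → r ≤ 4 * N + 2 →
    ∀ (τ : Ty) (l b : ℤ), rt N c r = (τ, l, b) →
      (l ≤ c ∧ c < l + wid N τ ∧ b ≤ r ∧ r < b + hei τ) ∧
      (∀ i : ℤ, 0 ≤ i → i < wid N τ → K N b (l + i) = dn N τ i ∧ K N (b + hei τ) (l + i) = up N τ i) ∧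
      (∀ c' r' : ℤ, l ≤ c' → c' < l + wid N τ → b ≤ r' → r' < b + hei τ → rt N c' r' = (τ, l, b))

/-- The left end of row `r` of the patch number `s`. -/
def lo (N s r : ℤ) : ℤ :=
  let t := r / 4
  if r % 4 = 2 then -(s - |t|) * per N
  else if r % 4 = 1 then
    if 1 ≤ t then -(s - t) * per N else -(s + t) * per N + xt N t
  else if r % 4 = 0 then
    if 1 ≤ t then -(s - t + 1) * per N + xt N t else -(s + t) * per N + xt N t
  else
    if 0 ≤ t then -(s - t) * per N + xt N (t + 1) else -(s + t) * per N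

/-- The right end of row `r` of the patch number `s`. -/
def hi (N s r : ℤ) : ℤ :=
  let t := r / 4
  if r % 4 = 2 then (s - |t|) * per N + (4 * N + 5)
  else if r % 4 = 1 then
    if 1 ≤ t then (s - t) * per N + (4 * N + 5) else (s + t - 1) * per N + xt N t + (4 * N + 8)
  else if r % 4 = 0 then
    if 1 ≤ t then (s - t) * per N + xt N t + (4 * N + 8) else (s + t - 1) * per N + xt N t + (4 * N + 8)
  else
    if 0 ≤ t then (s - t - 1) * per N + xt N (t + 1) + (4 * N + 8) else (s + t) * per N + (4 * N + 5)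

/-- The squares of the patch number `s`. -/
def InReg (N s : ℤ) (c r : ℤ) : Prop := -4 * s + 2 ≤ r ∧ r ≤ 4 * s + 2 ∧ lo N s r ≤ c ∧ c < hi N s r

/-- Part REG: the patches are unions of tiles, get narrower away from the row `2`, and each lies in the inside of
the next one. -/
def StmReg : Prop :=
  ∀ N : ℤ, 1 ≤ N → ∀ s : ℤ, 1 ≤ s → s ≤ N →
    (∀ c r : ℤ, InReg N s c r → ∀ (τ : Ty) (l b : ℤ), rt N c r = (τ, l, b) →
      ∀ c' r' : ℤ, l ≤ c' → c' < l + wid N τ → b ≤ r' → r' < b + hei τ → InReg N s c' r') ∧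
    (∀ r : ℤ, 2 ≤ r → r < 4 * s + 2 → lo N s r ≤ lo N s (r + 1) ∧ lo N s (r + 1) < hi N s (r + 1) ∧
      hi N s (r + 1) ≤ hi N s r) ∧
    (∀ r : ℤ, -4 * s + 2 < r → r ≤ 2 → lo N s r ≤ lo N s (r - 1) ∧ lo N s (r - 1) < hi N s (r - 1) ∧
      hi N s (r - 1) ≤ hi N s r) ∧
    lo N s 2 < hi N s 2 ∧
    (∀ r r' : ℤ, -4 * s + 2 ≤ r → r ≤ 4 * s + 2 → r - 1 ≤ r' → r' ≤ r + 1 →
      lo N (s + 1) r' < lo N s r ∧ hi N s r < hi N (s + 1) r')

/-- Part PSI: a homeomorphism of the plane that maps the rectangles of the squares to the keyed bars. -/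
def StmPsi : Prop :=
  ∀ N : ℤ, 0 ≤ N → ∃ Ψ : ℂ ≃ₜ ℂ, ∀ (τ : Ty) (l b : ℤ),
    (∀ i : ℤ, 0 ≤ i → i < wid N τ → K N b (l + i) = dn N τ i ∧ K N (b + hei τ) (l + i) = up N τ i) →
    Ψ '' {z : ℂ | 4 * (l : ℝ) ≤ z.re ∧ z.re ≤ 4 * (l + wid N τ) ∧ 4 * (b : ℝ) ≤ z.im ∧
      z.im ≤ 4 * (b + hei τ)} = shift (4 * l) (4 * b) '' Proto N τ

end Pool.Agent.R175.Sur
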