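import Mathlib
import Pool.Agent.R175.Sur.Defs

/-!
# Ten keyed bars: basic facts
-/

set_option autoImplicit false

namespace Pool.Agent.R175.Sur

open Set Complex

theorem shift_mul (a b c d : ℝ) : shift a b * shift c d = shift (a + c) (b + d) := by
  ext z
  change shift a b (shift c d z) = shift (a + c) (b + d) z
  rw [shift_apply, shift_apply, shift_apply]
  apply Complex.ext
  · change z.re + c + a = z.re + (a + c); ring
  · change z.im + d + b = z.im + (b + d); ring

theorem shift_flip (a b c d : ℝ) : shift a b * flip c d = flip (a + c) (b + d) := by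
  ext z
  change shift a b (flip c d z) = flip (a + c) (b + d) z
  rw [shift_apply, flip_apply, flip_apply]
  apply Complex.ext
  · change c - z.re + a = a + c - z.re; ring
  · change z.im + d + b = z.im + (b + d); ring

theorem flip_shift (a b c d : ℝ) : flip a b * shift c d = flip (a - c) (b + d) := by
  ext z
  change flip a b (shift c d z) = flip (a - c) (b + d) z
  rw [shift_apply, flip_apply, flip_apply]
  apply Complex.ext
  · change a - (z.re + c) = a - c - z.re; ring
  · change z.im + d + b = z.im + (b + d); ring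

theorem flip_flip (a b c d : ℝ) : flip a b * flip c d = shift (a - c) (b + d) := by
  ext z
  change flip a b (flip c d z) = shift (a - c) (b + d) z
  rw [shift_apply, flip_apply, flip_apply]
  apply Complex.ext
  · change a - (c - z.re) = z.re + (a - c); ring
  · change z.im + d + b = z.im + (b + d); ring

theorem img_mul (a b : ℂ ≃ᵢ ℂ) (X : Set ℂ) : (a * b) '' X = a '' (b '' X) := by
  rw [image_image]; rfl

theorem img_int (a : ℂ ≃ᵢ ℂ) (X : Set ℂ) : interior (a '' X) = a '' interior X :=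
  (a.toHomeomorph.image_interior X).symm

theorem prof_cell (k : ℤ → ℝ) (i : ℤ) {x : ℝ} (h1 : 4 * (i : ℝ) ≤ x) (h2 : x ≤ 4 * i + 4) :
    prof k x = k i * max 0 (1 - |x - 4 * i - 2|) := by
  rcases lt_or_eq_of_le h2 with h3 | h3
  · have : ⌊x / 4⌋ = i := by
      rw [Int.floor_eq_iff]
      constructor
      · linarith
      · linarith
    rw [prof, this]
  · have : ⌊x / 4⌋ = i + 1 := by
      rw [Int.floor_eq_iff]
      push_cast
      constructor
      · linarith
      · linarith
    rw [prof, this, h3]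
    have e1 : max 0 (1 - |4 * (i : ℝ) + 4 - 4 * ((i + 1 : ℤ) : ℝ) - 2|) = 0 := by
      push_cast
      rw [show (4 * (i : ℝ) + 4 - 4 * (i + 1) - 2) = -2 by ring, abs_neg, abs_two]
      norm_num
    have e2 : max 0 (1 - |4 * (i : ℝ) + 4 - 4 * i - 2|) = 0 := by
      rw [show (4 * (i : ℝ) + 4 - 4 * i - 2) = 2 by ring, abs_two]
      norm_num
    rw [e1, e2, mul_zero, mul_zero]

theorem tri_zero {x : ℝ} (h : 1 ≤ |x|) : max 0 (1 - |x|) = 0 := max_eq_left (by linarith)

theorem prof_zero (k : ℤ → ℝ) (i : ℤ) {x : ℝ} (h1 : 4 * (i : ℝ) - 1 < x) (h2 : x < 4 * i + 1) :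
    prof k x = 0 := by
  rcases le_total (4 * (i : ℝ)) x with h | h
  · rw [prof_cell k i h (by linarith), tri_zero, mul_zero]
    rw [le_abs]; right; linarith
  · rw [prof_cell k (i - 1) (by push_cast; linarith) (by push_cast; linarith), tri_zero, mul_zero]
    push_cast
    rw [le_abs]; left; linarith

theorem prof_continuous (k : ℤ → ℝ) : Continuous (prof k) := by
  rw [continuous_iff_continuousAt]
  intro x0
  have h1 := Int.floor_le (x0 / 4)
  have h2 := Int.lt_floor_add_one (x0 / 4)
  set i := ⌊x0 / 4⌋ with hi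
  rcases lt_or_eq_of_le h1 with h3 | h3
  · have h4 : ContinuousAt (fun x : ℝ => k i * max 0 (1 - |x - 4 * i - 2|)) x0 := by fun_prop
    refine h4.congr ?_
    have : Ioo (4 * (i : ℝ)) (4 * i + 4) ∈ nhds x0 := Ioo_mem_nhds (by linarith) (by linarith)
    filter_upwards [this] with x hx
    exact (prof_cell k i hx.1.le hx.2.le).symm
  · have h4 : ContinuousAt (fun _ : ℝ => (0 : ℝ)) x0 := continuousAt_const
    refine h4.congr ?_
    have : Ioo (4 * (i : ℝ) - 1) (4 * i + 1) ∈ nhds x0 := Ioo_mem_nhds (by linarith) (by linarith)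
    filter_upwards [this] with x hx
    exact (prof_zero k i hx.1 hx.2).symm

theorem tri_mem (x : ℝ) : 0 ≤ max 0 (1 - |x|) ∧ max 0 (1 - |x|) ≤ 1 :=
  ⟨le_max_left _ _, max_le (by norm_num) (by have := abs_nonneg x; linarith)⟩

theorem prof_le {k : ℤ → ℝ} (hk : ∀ i, 0 ≤ k i ∧ k i ≤ 2) (x : ℝ) : 0 ≤ prof k x ∧ prof k x ≤ 2 := by
  obtain ⟨h1, h2⟩ := tri_mem (x - 4 * ⌊x / 4⌋ - 2)
  obtain ⟨h3, h4⟩ := hk ⌊x / 4⌋
  unfold prof
  constructor
  · positivity
  · nlinarith

theorem up_le (N : ℤ) (τ : Ty) (i : ℤ) : 0 ≤ up N τ i ∧ up N τ i ≤ 2 := by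
  cases τ <;> simp only [up] <;> (try split_ifs) <;> norm_num

theorem dn_le (N : ℤ) (τ : Ty) (i : ℤ) : 0 ≤ dn N τ i ∧ dn N τ i ≤ 2 := by
  cases τ <;> simp only [dn] <;> (try split_ifs) <;> norm_num

theorem one_le_hei (τ : Ty) : 1 ≤ hei τ := by cases τ <;> simp [hei]

theorem one_le_wid {N : ℤ} (hN : 0 ≤ N) (τ : Ty) : 1 ≤ wid N τ := by
  cases τ <;> simp only [wid] <;> omega

/-- Points strictly between the bottom and the top are interior points. -/
theorem mem_int {N : ℤ} {τ : Ty} {z : ℂ} (h1 : 0 < z.re) (h2 : z.re < 4 * wid N τ)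
    (h3 : -prof (dn N τ) z.re < z.im) (h4 : z.im < 4 * hei τ - prof (up N τ) z.re) :
    z ∈ interior (Proto N τ) := by
  rw [mem_interior]
  refine ⟨{z | 0 < z.re ∧ z.re < 4 * wid N τ ∧ -prof (dn N τ) z.re < z.im ∧
    z.im < 4 * hei τ - prof (up N τ) z.re}, ?_, ?_, ⟨h1, h2, h3, h4⟩⟩
  · rintro w ⟨a, b, c, d⟩
    exact ⟨a.le, b.le, c.le, d.le⟩
  · have c1 := (prof_continuous (dn N τ)).comp Complex.continuous_re
    have c2 := (prof_continuous (up N τ)).comp Complex.continuous_re
    refine IsOpen.inter (isOpen_lt continuous_const Complex.continuous_re) (IsOpen.inter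
      (isOpen_lt Complex.continuous_re continuous_const) (IsOpen.inter (isOpen_lt c1.neg
      Complex.continuous_im) (isOpen_lt Complex.continuous_im (continuous_const.sub c2))))

/-- The core of a bar. -/
theorem mem_core {N : ℤ} {τ : Ty} {z : ℂ} (h1 : 0 < z.re) (h2 : z.re < 4 * wid N τ)
    (h3 : 0 < z.im) (h4 : z.im < 4 * hei τ - 2) : z ∈ interior (Proto N τ) := by
  have c1 := prof_le (dn_le N τ) z.re
  have c2 := prof_le (up_le N τ) z.re
  exact mem_int h1 h2 (by linarith) (by linarith)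

theorem proto_closed (N : ℤ) (τ : Ty) : IsClosed (Proto N τ) := by
  have c1 := (prof_continuous (dn N τ)).comp Complex.continuous_re
  have c2 := (prof_continuous (up N τ)).comp Complex.continuous_re
  exact IsClosed.inter (isClosed_le continuous_const Complex.continuous_re) (IsClosed.inter
      (isClosed_le Complex.continuous_re continuous_const) (IsClosed.inter (isClosed_le c1.neg
      Complex.continuous_im) (isClosed_le Complex.continuous_im (continuous_const.sub c2))))

theorem proto_bd {N : ℤ} {τ : Ty} {z : ℂ} (h : z ∈ Proto N τ) :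
    0 ≤ z.re ∧ z.re ≤ 4 * wid N τ ∧ -2 ≤ z.im ∧ z.im ≤ 4 * hei τ := by
  obtain ⟨h1, h2, h3, h4⟩ := h
  have c1 := prof_le (dn_le N τ) z.re
  have c2 := prof_le (up_le N τ) z.re
  exact ⟨h1, h2, by linarith, by linarith⟩

/-- The kinds of one column with constant keys are symmetric. -/
theorem sym {N : ℤ} {τ : Ty} (hw : wid N τ = 1) : flip 4 0 '' Proto N τ = Proto N τ := by
  have key : ∀ z ∈ Proto N τ, flip 4 0 z ∈ Proto N τ := by
    rintro z ⟨h1, h2, h3, h4⟩
    rw [hw] at h2
    push_cast at h2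
    rw [flip_apply]
    refine ⟨?_, ?_, ?_, ?_⟩
    · change 0 ≤ 4 - z.re; linarith
    · rw [hw]; push_cast; change 4 - z.re ≤ 4 * 1; linarith
    · change -prof (dn N τ) (4 - z.re) ≤ z.im + 0
      rw [prof_cell _ 0 (by push_cast; linarith) (by push_cast; linarith)] at h3 ⊢
      have : |4 - z.re - 4 * ((0 : ℤ) : ℝ) - 2| = |z.re - 4 * ((0 : ℤ) : ℝ) - 2| := by
        rw [← abs_neg]; congr 1; push_cast; ring
      rw [this]; linarith
    · change z.im + 0 ≤ 4 * hei τ - prof (up N τ) (4 - z.re)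
      rw [prof_cell _ 0 (by push_cast; linarith) (by push_cast; linarith)] at h4 ⊢
      have : |4 - z.re - 4 * ((0 : ℤ) : ℝ) - 2| = |z.re - 4 * ((0 : ℤ) : ℝ) - 2| := by
        rw [← abs_neg]; congr 1; push_cast; ring
      rw [this]; linarith
  apply Subset.antisymm
  · rintro _ ⟨z, hz, rfl⟩
    exact key z hz
  · intro z hz
    refine ⟨flip 4 0 z, key z hz, ?_⟩
    rw [flip_apply, flip_apply]
    apply Complex.ext
    · change 4 - (4 - z.re) = z.re; ring
    · change z.im + 0 + 0 = z.im; ring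

end Pool.Agent.R175.Sur
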