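import Pool.Agent.R175.Sur.Defs

/-!
# MP_ae4adf, part FORCE (helper165): every notch is filled by the tooth of the same depth
-/

set_option autoImplicit false

namespace Pool.Agent.R175.Sur

open Set Complex ComplexConjugate MeasureTheory Topology

namespace Fo

/-! ### isometries -/

theorem img_mul (a b : ℂ ≃ᵢ ℂ) (A : Set ℂ) : (a * b) '' A = a '' (b '' A) := by
  rw [image_image]; rfl

theorem img_int (a : ℂ ≃ᵢ ℂ) (A : Set ℂ) : interior (a '' A) = a '' interior A :=
  (a.toHomeomorph.image_interior A).symm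

theorem volume_image (g : ℂ ≃ᵢ ℂ) (A : Set ℂ) : volume (g '' A) = volume A := by
  have h1 : g '' A = (fun z => z + g 0) '' (g.toRealLinearIsometryEquiv '' A) := by
    rw [image_image]
    apply image_congr
    intro z _
    rw [IsometryEquiv.toRealLinearIsometryEquiv_apply]; ring
  rw [h1]
  have h2 : (fun z => z + g 0) '' (g.toRealLinearIsometryEquiv '' A) =
      (fun z => z + (-g 0)) ⁻¹' (g.toRealLinearIsometryEquiv '' A) := by
    ext z
    constructor
    · rintro ⟨w, hw, rfl⟩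
      rw [mem_preimage, add_neg_cancel_right]; exact hw
    · intro hz
      exact ⟨z + -g 0, hz, by ring⟩
  rw [h2, measure_preimage_add_right]
  have h3 : g.toRealLinearIsometryEquiv '' A = g.toRealLinearIsometryEquiv.symm ⁻¹' A :=
    g.toRealLinearIsometryEquiv.toEquiv.image_eq_preimage_symm A
  rw [h3]
  have h4 := g.toRealLinearIsometryEquiv.symm.measurePreserving
  exact h4.measure_preimage_emb g.toRealLinearIsometryEquiv.symm.toHomeomorph.measurableEmbedding A

/-- The two shapes of an isometry of the plane. -/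
theorem iso_form (h : ℂ ≃ᵢ ℂ) : ∃ u : ℂ, ‖u‖ = 1 ∧
    ((∀ z d, h (z + d) = h z + u * d) ∨ (∀ z d, h (z + d) = h z + u * conj d)) := by
  obtain ⟨a, ha⟩ := linear_isometry_complex h.toRealLinearIsometryEquiv
  refine ⟨a, Circle.norm_coe a, ?_⟩
  have h1 : ∀ x, h x = h.toRealLinearIsometryEquiv x + h 0 := by
    intro x
    rw [IsometryEquiv.toRealLinearIsometryEquiv_apply]; ring
  rcases ha with ha | ha
  · left
    intro z d
    rw [h1 (z + d), h1 z, ha]
    simp only [rotation_apply]; ring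
  · right
    intro z d
    rw [h1 (z + d), h1 z, ha]
    simp only [LinearIsometryEquiv.trans_apply, rotation_apply, conjLIE_apply, map_add]; ring

/-- real form of an isometry -/
theorem iso_real (h : ℂ ≃ᵢ ℂ) : ∃ s n1 n2 : ℝ, (s = 1 ∨ s = -1) ∧ n1 ^ 2 + n2 ^ 2 = 1 ∧
    ∀ z d : ℂ, h (z + d) = h z + ⟨s * n2 * d.re + n1 * d.im, -(s * n1) * d.re + n2 * d.im⟩ := by
  obtain ⟨u, hu, hf⟩ := iso_form h
  have hu2 : u.re ^ 2 + u.im ^ 2 = 1 := by
    have h1 : Complex.normSq u = 1 := by
      rw [Complex.normSq_eq_norm_sq, hu]; norm_num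
    rw [Complex.normSq_apply] at h1
    nlinarith
  rcases hf with hf | hf
  · refine ⟨1, -u.im, u.re, Or.inl rfl, by nlinarith, ?_⟩
    intro z d
    rw [hf]
    congr 1
    apply Complex.ext
    · simp; ring
    · simp; ring
  · refine ⟨-1, u.im, -u.re, Or.inr rfl, by nlinarith, ?_⟩
    intro z d
    rw [hf]
    congr 1
    apply Complex.ext
    · simp
    · simp; ring

/-! ### the profile -/

noncomputable def tent (u : ℝ) : ℝ := max 0 (1 - |u|)

lemma tent_nonneg (u : ℝ) : 0 ≤ tent u := le_max_left _ _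

lemma tent_le_one (u : ℝ) : tent u ≤ 1 := by
  unfold tent
  apply max_le zero_le_one
  have := abs_nonneg u
  linarith

lemma tent_cont : Continuous tent := by
  unfold tent
  fun_prop

lemma tent_anti {u v : ℝ} (h : |u| ≤ |v|) : tent v ≤ tent u := by
  unfold tent
  apply max_le_max le_rfl
  linarith

lemma tent_zero {u : ℝ} (h : 1 ≤ |u|) : tent u = 0 := by
  unfold tent
  exact max_eq_left (by linarith)

lemma tent_near {u : ℝ} (h : |u| ≤ 1) : tent u = 1 - |u| := by
  unfold tent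
  exact max_eq_right (by linarith)

lemma prof_eq (k : ℤ → ℝ) {i : ℤ} {x : ℝ} (h1 : 4 * (i : ℝ) ≤ x) (h2 : x ≤ 4 * i + 4) :
    prof k x = k i * tent (x - 4 * i - 2) := by
  unfold prof tent
  rcases lt_or_eq_of_le h2 with h | h
  · have hf : ⌊x / 4⌋ = i := by
      rw [Int.floor_eq_iff]
      constructor
      · rw [le_div_iff₀ (by norm_num)]; linarith
      · rw [div_lt_iff₀ (by norm_num)]; linarith
    rw [hf]
  · have hf : ⌊x / 4⌋ = i + 1 := by
      rw [Int.floor_eq_iff]
      push_cast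
      constructor
      · rw [le_div_iff₀ (by norm_num)]; linarith
      · rw [div_lt_iff₀ (by norm_num)]; linarith
    rw [hf, h]
    push_cast
    have e1 : (4 * (i : ℝ) + 4 - 4 * (i + 1) - 2) = -2 := by ring
    have e2 : (4 * (i : ℝ) + 4 - 4 * i - 2) = 2 := by ring
    rw [e1, e2]
    norm_num

lemma dn_bd (N : ℤ) (τ : Ty) (i : ℤ) : dn N τ i = 0 ∨ (6 / 5 ≤ dn N τ i ∧ dn N τ i ≤ 2) := by
  cases τ <;> simp only [dn] <;> (try split_ifs) <;> norm_num

lemma up_bd (N : ℤ) (τ : Ty) (i : ℤ) : up N τ i = 0 ∨ (6 / 5 ≤ up N τ i ∧ up N τ i ≤ 2) := by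
  cases τ <;> simp only [up] <;> (try split_ifs) <;> norm_num

lemma dn_nn (N : ℤ) (τ : Ty) (i : ℤ) : 0 ≤ dn N τ i ∧ dn N τ i ≤ 2 := by
  rcases dn_bd N τ i with h | h
  · rw [h]; norm_num
  · constructor <;> linarith [h.1, h.2]

lemma up_nn (N : ℤ) (τ : Ty) (i : ℤ) : 0 ≤ up N τ i ∧ up N τ i ≤ 2 := by
  rcases up_bd N τ i with h | h
  · rw [h]; norm_num
  · constructor <;> linarith [h.1, h.2]

lemma hei_bd (τ : Ty) : 1 ≤ hei τ ∧ hei τ ≤ 3 := by
  cases τ <;> simp [hei]

lemma hei_bd' (τ : Ty) : (1 : ℝ) ≤ hei τ ∧ (hei τ : ℝ) ≤ 3 := by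
  have := hei_bd τ
  constructor
  · exact_mod_cast this.1
  · exact_mod_cast this.2

lemma wid_bd {N : ℤ} (hN : 0 ≤ N) (τ : Ty) : 1 ≤ wid N τ ∧ wid N τ ≤ 4 * N + 8 := by
  cases τ <;> simp only [wid] <;> omega

lemma tent_mul {k u : ℝ} (h0 : 0 ≤ k) (h2 : k ≤ 2) : 0 ≤ k * tent u ∧ k * tent u ≤ 2 := by
  have h3 := tent_nonneg u
  have h4 := tent_le_one u
  constructor
  · positivity
  · nlinarith

/-- column description of the prototile -/
lemma mem_col {N : ℤ} (hN : 0 ≤ N) (τ : Ty) {z : ℂ} (hz : z ∈ Proto N τ) :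
    ∃ j : ℤ, 0 ≤ j ∧ j < wid N τ ∧ 4 * (j : ℝ) ≤ z.re ∧ z.re ≤ 4 * j + 4 ∧
      -(dn N τ j * tent (z.re - 4 * j - 2)) ≤ z.im ∧
      z.im ≤ 4 * hei τ - up N τ j * tent (z.re - 4 * j - 2) := by
  obtain ⟨h1, h2, h3, h4⟩ := hz
  have hw := (wid_bd hN τ).1
  rcases lt_or_eq_of_le h2 with h | h
  · set j := ⌊z.re / 4⌋ with hj
    have hj1 : (j : ℝ) ≤ z.re / 4 := Int.floor_le _
    have hj2 : z.re / 4 < j + 1 := Int.lt_floor_add_one _
    have hj3 : 4 * (j : ℝ) ≤ z.re := by linarith
    have hj4 : z.re ≤ 4 * j + 4 := by linarith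
    refine ⟨j, ?_, ?_, hj3, hj4, ?_, ?_⟩
    · rw [hj, Int.floor_nonneg]; positivity
    · rw [hj, Int.floor_lt]
      rw [div_lt_iff₀ (by norm_num)]
      linarith
    · rw [← prof_eq _ hj3 hj4]; exact h3
    · rw [← prof_eq _ hj3 hj4]; exact h4
  · have hj3 : 4 * ((wid N τ - 1 : ℤ) : ℝ) ≤ z.re := by rw [h]; push_cast; linarith
    have hj4 : z.re ≤ 4 * ((wid N τ - 1 : ℤ) : ℝ) + 4 := by rw [h]; push_cast; linarith
    refine ⟨wid N τ - 1, by omega, by omega, hj3, hj4, ?_, ?_⟩
    · rw [← prof_eq _ hj3 hj4]; exact h3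
    · rw [← prof_eq _ hj3 hj4]; exact h4

lemma of_col {N : ℤ} (τ : Ty) {z : ℂ} {j : ℤ} (h0 : 0 ≤ j) (hw : j < wid N τ)
    (h1 : 4 * (j : ℝ) ≤ z.re) (h2 : z.re ≤ 4 * j + 4)
    (h3 : -(dn N τ j * tent (z.re - 4 * j - 2)) ≤ z.im)
    (h4 : z.im ≤ 4 * hei τ - up N τ j * tent (z.re - 4 * j - 2)) : z ∈ Proto N τ := by
  have h0' : (0 : ℝ) ≤ j := by exact_mod_cast h0
  have hw' : (j : ℝ) + 1 ≤ wid N τ := by exact_mod_cast hw
  refine ⟨by linarith, by linarith, ?_, ?_⟩
  · rw [prof_eq _ h1 h2]; exact h3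
  · rw [prof_eq _ h1 h2]; exact h4

lemma proto_eq {N : ℤ} (hN : 0 ≤ N) (τ : Ty) : Proto N τ = ⋃ j ∈ Finset.Ico 0 (wid N τ),
    {z : ℂ | 4 * (j : ℝ) ≤ z.re ∧ z.re ≤ 4 * j + 4 ∧
      -(dn N τ j * tent (z.re - 4 * j - 2)) ≤ z.im ∧
      z.im ≤ 4 * hei τ - up N τ j * tent (z.re - 4 * j - 2)} := by
  ext z
  simp only [mem_iUnion, Finset.mem_Ico, exists_prop]
  constructor
  · intro hz
    obtain ⟨j, a, b, c⟩ := mem_col hN τ hz
    exact ⟨j, ⟨a, b⟩, c⟩
  · rintro ⟨j, ⟨a, b⟩, c1, c2, c3, c4⟩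
    exact of_col τ a b c1 c2 c3 c4

lemma proto_closed {N : ℤ} (hN : 0 ≤ N) (τ : Ty) : IsClosed (Proto N τ) := by
  rw [proto_eq hN]
  apply (Finset.Ico 0 (wid N τ)).finite_toSet.isClosed_biUnion
  intro j _
  have ht : Continuous fun z : ℂ => tent (z.re - 4 * j - 2) :=
    tent_cont.comp (by fun_prop)
  apply IsClosed.inter (isClosed_le continuous_const Complex.continuous_re)
  apply IsClosed.inter (isClosed_le Complex.continuous_re continuous_const)
  apply IsClosed.inter
  · exact isClosed_le (by fun_prop) Complex.continuous_im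
  · exact isClosed_le Complex.continuous_im (by fun_prop)

lemma proto_norm {N : ℤ} (hN : 0 ≤ N) (τ : Ty) {z : ℂ} (hz : z ∈ Proto N τ) :
    ‖z‖ ≤ 16 * N + 60 := by
  obtain ⟨j, a, b, c1, c2, c3, c4⟩ := mem_col hN τ hz
  have hw := (wid_bd hN τ).2
  have h1 := hei_bd' τ
  have h2 := tent_mul (u := z.re - 4 * j - 2) (dn_nn N τ j).1 (dn_nn N τ j).2
  have h3 := tent_mul (u := z.re - 4 * j - 2) (up_nn N τ j).1 (up_nn N τ j).2
  have hj : (j : ℝ) + 1 ≤ 4 * N + 8 := by
    have : j + 1 ≤ 4 * N + 8 := by omega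
    exact_mod_cast this
  have hj0 : (0 : ℝ) ≤ j := by exact_mod_cast a
  have hN' : (0 : ℝ) ≤ N := by exact_mod_cast hN
  calc ‖z‖ ≤ |z.re| + |z.im| := Complex.norm_le_abs_re_add_abs_im z
    _ ≤ (16 * N + 32) + 12 := by
        apply add_le_add
        · rw [abs_le]; constructor <;> linarith
        · rw [abs_le]; constructor <;> linarith
    _ ≤ 16 * N + 60 := by linarith

/-- a box inside every prototile -/
lemma box {N : ℤ} (hN : 0 ≤ N) (τ : Ty) :
    {z : ℂ | 0 < z.re ∧ z.re < 4 ∧ 0 < z.im ∧ z.im < 2} ⊆ interior (Proto N τ) := by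
  apply interior_maximal
  · rintro z ⟨a, b, c, d⟩
    have h1 := hei_bd' τ
    have h2 := tent_mul (u := z.re - 4 * ((0 : ℤ) : ℝ) - 2) (dn_nn N τ 0).1 (dn_nn N τ 0).2
    have h3 := tent_mul (u := z.re - 4 * ((0 : ℤ) : ℝ) - 2) (up_nn N τ 0).1 (up_nn N τ 0).2
    have hw := (wid_bd hN τ).1
    apply of_col τ (j := 0) le_rfl (by omega)
    · simpa using a.le
    · simpa using b.le
    · linarith
    · linarith
  · apply IsOpen.inter (isOpen_lt continuous_const Complex.continuous_re)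
    apply IsOpen.inter (isOpen_lt Complex.continuous_re continuous_const)
    apply IsOpen.inter (isOpen_lt continuous_const Complex.continuous_im)
    exact isOpen_lt Complex.continuous_im continuous_const

/-- Local finiteness. -/
theorem LF {N : ℤ} (hN : 0 ≤ N) {F : Set (Set ℂ)} (hF : Tlg N F) (v : ℂ) :
    ∀ᶠ z in 𝓝 v, ∀ T ∈ F, z ∈ T → v ∈ T := by
  let 𝒜 : Set (Set ℂ) := {A | A ∈ F ∧ (A ∩ Metric.ball v 1).Nonempty}
  let B0 : Set ℂ := {z : ℂ | 0 < z.re ∧ z.re < 4 ∧ 0 < z.im ∧ z.im < 2}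
  have hB0 : IsOpen B0 := by
    apply IsOpen.inter (isOpen_lt continuous_const Complex.continuous_re)
    apply IsOpen.inter (isOpen_lt Complex.continuous_re continuous_const)
    apply IsOpen.inter (isOpen_lt continuous_const Complex.continuous_im)
    exact isOpen_lt Complex.continuous_im continuous_const
  have hfin : 𝒜.Finite := by
    have h1 := Measure.finite_const_le_meas_of_disjoint_iUnion (volume : Measure ℂ)
      (ε := volume B0) (As := fun A : 𝒜 => interior (A : Set ℂ)) ?_ ?_ ?_ ?_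
    · have h2 : {i : 𝒜 | volume B0 ≤ volume (interior (i : Set ℂ))} = univ := by
        ext ⟨A, hA, hne⟩
        simp only [mem_ofPred_eq, mem_univ, iff_true]
        obtain ⟨τ, h, rfl⟩ := hF.tile A hA
        rw [img_int, volume_image]
        exact measure_mono (box hN τ)
      rw [h2] at h1
      exact Set.finite_coe_iff.1 (Set.finite_univ_iff.1 h1)
    · apply IsOpen.measure_pos _ hB0
      exact ⟨⟨1, 1⟩, by norm_num, by norm_num, by norm_num, by norm_num⟩
    · intro A
      exact isOpen_interior.measurableSet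
    · rintro ⟨A, ha, hA⟩ ⟨B, hb, hB⟩ hAB
      change Disjoint (interior A) (interior B)
      exact hF.disj A ha B hb fun h => hAB (Subtype.ext h)
    · have h3 : (⋃ i : 𝒜, interior (i : Set ℂ)) ⊆
          Metric.closedBall v (1 + 2 * (16 * N + 60)) := by
        apply iUnion_subset
        rintro ⟨A, ha, ⟨w, hwA, hw⟩⟩
        refine interior_subset.trans ?_
        obtain ⟨τ, a, rfl⟩ := hF.tile A ha
        obtain ⟨y, hy, rfl⟩ := hwA
        rintro _ ⟨z, hz, rfl⟩
        rw [Metric.mem_closedBall]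
        rw [Metric.mem_ball] at hw
        have h4 : dist (a z) (a y) ≤ 2 * (16 * N + 60) := by
          rw [a.dist_eq, dist_eq_norm]
          have := norm_sub_le z y
          have h5 := proto_norm hN τ hz
          have h6 := proto_norm hN τ hy
          linarith
        have := dist_triangle (a z) (a y) v
        linarith
      exact ((measure_mono h3).trans_lt measure_closedBall_lt_top).ne
  have h1 : ∀ᶠ z in 𝓝 v, ∀ A ∈ 𝒜, v ∉ A → z ∉ A := by
    rw [Filter.eventually_all_finite hfin]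
    rintro A ⟨ha, hA⟩
    by_cases hv : v ∈ A
    · exact Filter.Eventually.of_forall fun z h => absurd hv h
    · obtain ⟨τ, a, rfl⟩ := hF.tile A ha
      have hcl : IsClosed (a '' Proto N τ) :=
        (a.toHomeomorph.isClosed_image).2 (proto_closed hN τ)
      have := hcl.isOpen_compl.mem_nhds hv
      filter_upwards [this] with z hz _
      exact hz
  filter_upwards [h1, Metric.ball_mem_nhds v one_pos] with z hz hz1 T hT hzT
  by_contra hv
  exact hz T ⟨hT, z, hzT, hz1⟩ hv hzT

/-- quadrants at the points that are no tips -/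
lemma quad {N : ℤ} (hN : 0 ≤ N) (τ : Ty) {u : ℂ} (hu : u ∈ Proto N τ) :
    (∃ j : ℤ, 0 ≤ j ∧ j < wid N τ ∧ 0 < dn N τ j ∧ u.re = 4 * j + 2 ∧ u.im = -dn N τ j) ∨
    ∃ s1 s2 δ : ℝ, (s1 = 1 ∨ s1 = -1) ∧ (s2 = 1 ∨ s2 = -1) ∧ 0 < δ ∧
      ∀ a b : ℝ, 0 ≤ a → a ≤ δ → 0 ≤ b → b ≤ δ →
        (⟨u.re + s1 * a, u.im + s2 * b⟩ : ℂ) ∈ Proto N τ := by
  obtain ⟨j, a0, b0, c1, c2, c3, c4⟩ := mem_col hN τ hu
  have hh := hei_bd' τ
  have hdn := dn_nn N τ j
  have hup := up_nn N τ j
  -- general construction: horizontal direction `s1` on an interval, vertical direction `s2`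
  have gen : ∀ s1 s2 δ : ℝ, (s1 = 1 ∨ s1 = -1) → (s2 = 1 ∨ s2 = -1) → 0 < δ →
      (∀ a, 0 ≤ a → a ≤ δ → 4 * (j : ℝ) ≤ u.re + s1 * a ∧ u.re + s1 * a ≤ 4 * j + 4) →
      (∀ a b, 0 ≤ a → a ≤ δ → 0 ≤ b → b ≤ δ →
        -(dn N τ j * tent (u.re + s1 * a - 4 * j - 2)) ≤ u.im + s2 * b ∧
        u.im + s2 * b ≤ 4 * hei τ - up N τ j * tent (u.re + s1 * a - 4 * j - 2)) →
      ∃ s1 s2 δ : ℝ, (s1 = 1 ∨ s1 = -1) ∧ (s2 = 1 ∨ s2 = -1) ∧ 0 < δ ∧
      ∀ a b : ℝ, 0 ≤ a → a ≤ δ → 0 ≤ b → b ≤ δ →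
        (⟨u.re + s1 * a, u.im + s2 * b⟩ : ℂ) ∈ Proto N τ := by
    intro s1 s2 δ h1 h2 h3 h4 h5
    refine ⟨s1, s2, δ, h1, h2, h3, fun a b ha ha' hb hb' => ?_⟩
    exact of_col τ a0 b0 (h4 a ha ha').1 (h4 a ha ha').2 (h5 a b ha ha' hb hb').1
      (h5 a b ha ha' hb hb').2
  by_cases hy : 1 ≤ u.im
  · -- upper half: go down
    right
    have vert : ∀ a b s1 : ℝ, 0 ≤ b → b ≤ 1 →
        tent (u.re + s1 * a - 4 * j - 2) ≤ tent (u.re - 4 * j - 2) →
        -(dn N τ j * tent (u.re + s1 * a - 4 * j - 2)) ≤ u.im + (-1) * b ∧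
        u.im + (-1) * b ≤ 4 * hei τ - up N τ j * tent (u.re + s1 * a - 4 * j - 2) := by
      intro a b s1 hb hb' ht
      have h1 := tent_mul (u := u.re + s1 * a - 4 * j - 2) hdn.1 hdn.2
      have h2 : up N τ j * tent (u.re + s1 * a - 4 * j - 2) ≤
          up N τ j * tent (u.re - 4 * j - 2) := mul_le_mul_of_nonneg_left ht hup.1
      constructor <;> linarith
    rcases lt_trichotomy u.re (4 * j + 2) with h | h | h
    · rcases lt_or_eq_of_le c1 with h' | h'
      · -- left
        apply gen (-1) (-1) (min 1 (u.re - 4 * j)) (Or.inr rfl) (Or.inr rfl)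
          (lt_min one_pos (by linarith))
        · intro a ha ha'
          rw [le_min_iff] at ha'
          constructor <;> linarith [ha'.2]
        · intro a b ha ha' hb hb'
          rw [le_min_iff] at ha' hb'
          apply vert a b (-1) hb hb'.1
          apply tent_anti
          rw [abs_of_neg (by linarith), abs_of_neg (by linarith)]
          linarith
      · -- the left end: right
        apply gen 1 (-1) 1 (Or.inl rfl) (Or.inr rfl) one_pos
        · intro a ha ha'
          constructor <;> linarith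
        · intro a b ha ha' hb hb'
          apply vert a b 1 hb hb'
          rw [tent_zero (u := u.re + 1 * a - 4 * j - 2)]
          · exact tent_nonneg _
          · rw [abs_of_neg (by linarith)]; linarith
    · apply gen 1 (-1) 1 (Or.inl rfl) (Or.inr rfl) one_pos
      · intro a ha ha'
        constructor <;> linarith
      · intro a b ha ha' hb hb'
        apply vert a b 1 hb hb'
        apply tent_anti
        rw [h]
        have : (4 * (j : ℝ) + 2 - 4 * j - 2) = 0 := by ring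
        rw [this, abs_zero]
        exact abs_nonneg _
    · rcases lt_or_eq_of_le c2 with h' | h'
      · apply gen 1 (-1) (min 1 (4 * j + 4 - u.re)) (Or.inl rfl) (Or.inr rfl)
          (lt_min one_pos (by linarith))
        · intro a ha ha'
          rw [le_min_iff] at ha'
          constructor <;> linarith [ha'.2]
        · intro a b ha ha' hb hb'
          rw [le_min_iff] at ha' hb'
          apply vert a b 1 hb hb'.1
          apply tent_anti
          rw [abs_of_pos (by linarith), abs_of_pos (by linarith)]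
          linarith
      · apply gen (-1) (-1) 1 (Or.inr rfl) (Or.inr rfl) one_pos
        · intro a ha ha'
          constructor <;> linarith
        · intro a b ha ha' hb hb'
          apply vert a b (-1) hb hb'
          rw [tent_zero (u := u.re + -1 * a - 4 * j - 2)]
          · exact tent_nonneg _
          · rw [abs_of_pos (by linarith)]; linarith
  · -- lower half: go up
    push Not at hy
    have vert : ∀ a b s1 : ℝ, 0 ≤ b → b ≤ 1 →
        -(dn N τ j * tent (u.re + s1 * a - 4 * j - 2)) ≤ u.im →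
        -(dn N τ j * tent (u.re + s1 * a - 4 * j - 2)) ≤ u.im + 1 * b ∧
        u.im + 1 * b ≤ 4 * hei τ - up N τ j * tent (u.re + s1 * a - 4 * j - 2) := by
      intro a b s1 hb hb' ht
      have h1 := tent_mul (u := u.re + s1 * a - 4 * j - 2) hup.1 hup.2
      constructor <;> linarith
    rcases lt_trichotomy u.re (4 * j + 2) with h | h | h
    · right
      apply gen 1 1 (min 1 (4 * j + 2 - u.re)) (Or.inl rfl) (Or.inl rfl)
        (lt_min one_pos (by linarith))
      · intro a ha ha'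
        rw [le_min_iff] at ha'
        constructor <;> linarith [ha'.2]
      · intro a b ha ha' hb hb'
        rw [le_min_iff] at ha' hb'
        apply vert a b 1 hb hb'.1
        have ht : tent (u.re - 4 * j - 2) ≤ tent (u.re + 1 * a - 4 * j - 2) := by
          apply tent_anti
          rw [abs_of_nonpos (by linarith [ha'.2]), abs_of_neg (by linarith)]
          linarith
        have := mul_le_mul_of_nonneg_left ht hdn.1
        linarith
    · rcases lt_or_eq_of_le hdn.1 with hd | hd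
      · have htc : tent (u.re - 4 * j - 2) = 1 := by
          rw [h]
          have : (4 * (j : ℝ) + 2 - 4 * j - 2) = 0 := by ring
          rw [this, tent_near (by simp)]
          simp
        rw [htc, mul_one] at c3
        rcases lt_or_eq_of_le c3 with hlt | heq
        · right
          apply gen 1 1 (min 1 ((u.im + dn N τ j) / dn N τ j)) (Or.inl rfl) (Or.inl rfl)
            (lt_min one_pos (div_pos (by linarith) hd))
          · intro a ha ha'
            rw [le_min_iff] at ha'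
            constructor <;> linarith [ha'.1]
          · intro a b ha ha' hb hb'
            rw [le_min_iff] at ha' hb'
            apply vert a b 1 hb hb'.1
            have e : u.re + 1 * a - 4 * j - 2 = a := by rw [h]; ring
            rw [e, tent_near (by rw [abs_of_nonneg ha]; exact ha'.1), abs_of_nonneg ha]
            have := ha'.2
            rw [le_div_iff₀ hd] at this
            linarith
        · left
          exact ⟨j, a0, b0, hd, h, heq.symm⟩
      · right
        apply gen 1 1 1 (Or.inl rfl) (Or.inl rfl) one_pos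
        · intro a ha ha'
          constructor <;> linarith
        · intro a b ha ha' hb hb'
          apply vert a b 1 hb hb'
          rw [← hd, zero_mul, neg_zero] at c3 ⊢
          exact c3
    · right
      apply gen (-1) 1 (min 1 (u.re - (4 * j + 2))) (Or.inr rfl) (Or.inl rfl)
        (lt_min one_pos (by linarith))
      · intro a ha ha'
        rw [le_min_iff] at ha'
        constructor <;> linarith [ha'.2]
      · intro a b ha ha' hb hb'
        rw [le_min_iff] at ha' hb'
        apply vert a b (-1) hb hb'.1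
        have ht : tent (u.re - 4 * j - 2) ≤ tent (u.re + -1 * a - 4 * j - 2) := by
          apply tent_anti
          rw [abs_of_nonneg (by linarith [ha'.2]), abs_of_pos (by linarith)]
          linarith
        have := mul_le_mul_of_nonneg_left ht hdn.1
        linarith

/-! ### tips and notches -/

lemma tip_int {N : ℤ} (τ : Ty) {j : ℤ} (h0 : 0 ≤ j) (hw : j < wid N τ) {x y : ℝ}
    (hx : |x| < 1) (hy : y < 1) (hxy : dn N τ j * |x| < y) :
    (⟨4 * j + 2 + x, -dn N τ j + y⟩ : ℂ) ∈ interior (Proto N τ) := by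
  have hsub : {z : ℂ | |z.re - (4 * j + 2)| < 1 ∧ z.im + dn N τ j < 1 ∧
      dn N τ j * |z.re - (4 * j + 2)| < z.im + dn N τ j} ⊆ Proto N τ := by
    rintro z ⟨a, b, c⟩
    have hd := dn_nn N τ j
    have hu := up_nn N τ j
    have hh := hei_bd' τ
    have h1 := tent_mul (u := z.re - 4 * j - 2) hu.1 hu.2
    rw [abs_lt] at a
    apply of_col τ h0 hw
    · linarith
    · linarith
    · have e : z.re - 4 * j - 2 = z.re - (4 * j + 2) := by ring
      rw [e, tent_near (abs_le.2 ⟨by linarith, by linarith⟩)]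
      linarith
    · linarith
  have hopen : IsOpen {z : ℂ | |z.re - (4 * j + 2)| < 1 ∧ z.im + dn N τ j < 1 ∧
      dn N τ j * |z.re - (4 * j + 2)| < z.im + dn N τ j} := by
    have hr := Complex.continuous_re
    have hi := Complex.continuous_im
    have o1 : IsOpen {z : ℂ | |z.re - (4 * j + 2)| < 1} :=
      isOpen_lt (by fun_prop) continuous_const
    have o2 : IsOpen {z : ℂ | z.im + dn N τ j < 1} :=
      isOpen_lt (by fun_prop) continuous_const
    have o3 : IsOpen {z : ℂ | dn N τ j * |z.re - (4 * j + 2)| < z.im + dn N τ j} :=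
      isOpen_lt (by fun_prop) (by fun_prop)
    exact o1.inter (o2.inter o3)
  apply interior_maximal hsub hopen
  have e1 : 4 * (j : ℝ) + 2 + x - (4 * j + 2) = x := by ring
  have e2 : -dn N τ j + y + dn N τ j = y := by ring
  refine ⟨?_, ?_, ?_⟩
  · show |4 * (j : ℝ) + 2 + x - (4 * j + 2)| < 1
    rw [e1]; exact hx
  · show -dn N τ j + y + dn N τ j < 1
    rw [e2]; exact hy
  · show dn N τ j * |4 * (j : ℝ) + 2 + x - (4 * j + 2)| < -dn N τ j + y + dn N τ j
    rw [e1, e2]; exact hxy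

lemma tip_mem {N : ℤ} (τ : Ty) {j : ℤ} {x y : ℝ} (hx : |x| ≤ 1)
    (hm : (⟨4 * j + 2 + x, -dn N τ j + y⟩ : ℂ) ∈ Proto N τ) : dn N τ j * |x| ≤ y := by
  obtain ⟨_, _, h3, _⟩ := hm
  simp only at h3
  have hx' := abs_le.1 hx
  rw [prof_eq (dn N τ) (i := j) (by linarith) (by linarith)] at h3
  have e : 4 * (j : ℝ) + 2 + x - 4 * j - 2 = x := by ring
  rw [e, tent_near hx] at h3
  linarith

lemma notch_int {N : ℤ} (τ : Ty) {i : ℤ} (h0 : 0 ≤ i) (hw : i < wid N τ) {x y : ℝ}
    (hx : |x| < 1) (hy : |y| < 1) (hxy : y < up N τ i * |x|) :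
    (⟨4 * i + 2 + x, 4 * hei τ - up N τ i + y⟩ : ℂ) ∈ interior (Proto N τ) := by
  have hsub : {z : ℂ | |z.re - (4 * i + 2)| < 1 ∧ |z.im - (4 * hei τ - up N τ i)| < 1 ∧
      z.im - (4 * hei τ - up N τ i) < up N τ i * |z.re - (4 * i + 2)|} ⊆ Proto N τ := by
    rintro z ⟨a, b, c⟩
    have hd := dn_nn N τ i
    have hu := up_nn N τ i
    have hh := hei_bd' τ
    have h1 := tent_mul (u := z.re - 4 * i - 2) hd.1 hd.2
    rw [abs_lt] at a b
    apply of_col τ h0 hw
    · linarith
    · linarith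
    · linarith
    · have e : z.re - 4 * i - 2 = z.re - (4 * i + 2) := by ring
      rw [e, tent_near (abs_le.2 ⟨by linarith, by linarith⟩)]
      linarith
  have hopen : IsOpen {z : ℂ | |z.re - (4 * i + 2)| < 1 ∧ |z.im - (4 * hei τ - up N τ i)| < 1 ∧
      z.im - (4 * hei τ - up N τ i) < up N τ i * |z.re - (4 * i + 2)|} := by
    have hr := Complex.continuous_re
    have hi := Complex.continuous_im
    have o1 : IsOpen {z : ℂ | |z.re - (4 * i + 2)| < 1} :=
      isOpen_lt (by fun_prop) continuous_const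
    have o2 : IsOpen {z : ℂ | |z.im - (4 * hei τ - up N τ i)| < 1} :=
      isOpen_lt (by fun_prop) continuous_const
    have o3 : IsOpen {z : ℂ | z.im - (4 * hei τ - up N τ i) <
        up N τ i * |z.re - (4 * i + 2)|} :=
      isOpen_lt (by fun_prop) (by fun_prop)
    exact o1.inter (o2.inter o3)
  apply interior_maximal hsub hopen
  have e1 : 4 * (i : ℝ) + 2 + x - (4 * i + 2) = x := by ring
  have e2 : 4 * (hei τ : ℝ) - up N τ i + y - (4 * hei τ - up N τ i) = y := by ring
  refine ⟨?_, ?_, ?_⟩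
  · show |4 * (i : ℝ) + 2 + x - (4 * i + 2)| < 1
    rw [e1]; exact hx
  · show |4 * (hei τ : ℝ) - up N τ i + y - (4 * hei τ - up N τ i)| < 1
    rw [e2]; exact hy
  · show 4 * (hei τ : ℝ) - up N τ i + y - (4 * hei τ - up N τ i) <
      up N τ i * |4 * (i : ℝ) + 2 + x - (4 * i + 2)|
    rw [e1, e2]; exact hxy

lemma notch_mem {N : ℤ} (τ : Ty) {i : ℤ} {x y : ℝ} (hx : |x| ≤ 1)
    (hm : (⟨4 * i + 2 + x, 4 * hei τ - up N τ i + y⟩ : ℂ) ∈ Proto N τ) : y ≤ up N τ i * |x| := by
  obtain ⟨_, _, _, h4⟩ := hm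
  simp only at h4
  have hx' := abs_le.1 hx
  rw [prof_eq (up N τ) (i := i) (by linarith) (by linarith)] at h4
  have e : 4 * (i : ℝ) + 2 + x - 4 * i - 2 = x := by ring
  rw [e, tent_near hx] at h4
  linarith

/-! ### elementary inequalities -/

lemma lim_aux {H p q r t : ℝ} (hH : 0 ≤ H) (h : ∀ b : ℝ, 0 < b → H * |p + b * q| ≤ r + b * t) :
    H * |p| ≤ r := by
  apply le_of_forall_pos_le_add
  intro ε hε
  set c : ℝ := |t| + H * |q| + 1 with hc
  have hc0 : 0 < c := by positivity
  have h1 := h (ε / c) (by positivity)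
  have h2 : |p| ≤ |p + ε / c * q| + ε / c * |q| := by
    have e : p = (p + ε / c * q) + -(ε / c * q) := by ring
    calc |p| = |(p + ε / c * q) + -(ε / c * q)| := by rw [← e]
      _ ≤ |p + ε / c * q| + |-(ε / c * q)| := abs_add_le _ _
      _ = _ := by rw [abs_neg, abs_mul, abs_of_pos (by positivity : 0 < ε / c)]
  have h3 := mul_le_mul_of_nonneg_left h2 hH
  have h4 : ε / c * t ≤ ε / c * |t| := mul_le_mul_of_nonneg_left (le_abs_self t) (by positivity)
  have h5 : ε / c * |t| + H * (ε / c * |q|) ≤ ε := by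
    have e : ε / c * |t| + H * (ε / c * |q|) = ε / c * (|t| + H * |q|) := by ring
    rw [e]
    calc ε / c * (|t| + H * |q|) ≤ ε / c * c :=
          mul_le_mul_of_nonneg_left (by rw [hc]; linarith) (by positivity)
      _ = ε := by field_simp
  linarith

/-- no right angle in the gap -/
lemma no_right {H P Q R S : ℝ} (hH : 6 / 5 ≤ H) (h1 : H * |P| ≤ Q) (h2 : H * |R| ≤ S)
    (h3 : P * R + Q * S = 0) (h4 : P ^ 2 + Q ^ 2 = 1) (h5 : R ^ 2 + S ^ 2 = 1) : False := by
  have hP := abs_nonneg P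
  have hR := abs_nonneg R
  have h6 : (H * |P|) * (H * |R|) ≤ Q * S :=
    mul_le_mul h1 h2 (by positivity) (le_trans (by positivity) h1)
  have h7 : -(|P| * |R|) ≤ P * R := by
    rw [← abs_mul]
    exact neg_abs_le _
  have h8 : 36 / 25 * (|P| * |R|) ≤ (H * |P|) * (H * |R|) := by
    have e : (H * |P|) * (H * |R|) = H ^ 2 * (|P| * |R|) := by ring
    rw [e]
    apply mul_le_mul_of_nonneg_right _ (by positivity)
    nlinarith
  have h9 : |P| * |R| = 0 := by
    have : 0 ≤ |P| * |R| := by positivity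
    nlinarith
  have hQ : 0 ≤ Q := le_trans (by positivity) h1
  have hS : 0 ≤ S := le_trans (by positivity) h2
  have h10 : Q * S = 0 := by
    rw [← abs_mul, abs_eq_zero] at h9
    linarith
  rcases mul_eq_zero.1 h10 with h | h
  · rw [h] at h1
    have : |P| = 0 := by nlinarith
    rw [abs_eq_zero.1 this, h] at h4
    norm_num at h4
  · rw [h] at h2
    have : |R| = 0 := by nlinarith
    rw [abs_eq_zero.1 this, h] at h5
    norm_num at h5

/-- position of a cone in the gap -/
lemma cone_in {H H' n1 n2 : ℝ} (hH : 6 / 5 ≤ H) (hn : n1 ^ 2 + n2 ^ 2 = 1) (hH' : 0 < H')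
    (h1 : H * |n2 + n1 * H'| ≤ -n1 + n2 * H') (h2 : H * |-n2 + n1 * H'| ≤ n1 + n2 * H') :
    0 < n2 ∧ (1 + H * H') * |n1| ≤ (H' - H) * n2 := by
  have hH0 : 0 < H := by linarith
  have h3 : H * (n2 + n1 * H') ≤ -n1 + n2 * H' :=
    le_trans (mul_le_mul_of_nonneg_left (le_abs_self _) hH0.le) h1
  have h4 : H * -(-n2 + n1 * H') ≤ n1 + n2 * H' :=
    le_trans (mul_le_mul_of_nonneg_left (neg_le_abs _) hH0.le) h2
  have h5 : 0 ≤ -n1 + n2 * H' := le_trans (by positivity) h1
  have h6 : 0 ≤ n1 + n2 * H' := le_trans (by positivity) h2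
  have h7 : 0 ≤ n2 := by
    by_contra hc
    push Not at hc
    nlinarith
  have h8 : 0 < n2 := by
    rcases lt_or_eq_of_le h7 with h | h
    · exact h
    · exfalso
      rw [← h] at h5 h6 hn
      have : n1 = 0 := by linarith
      rw [this] at hn
      norm_num at hn
  refine ⟨h8, ?_⟩
  have h9 : (1 + H * H') * n1 ≤ (H' - H) * n2 := by nlinarith
  have h10 : (1 + H * H') * -n1 ≤ (H' - H) * n2 := by nlinarith
  rcases abs_cases n1 with ⟨h, _⟩ | ⟨h, _⟩
  · rw [h]; exact h9
  · rw [h]; exact h10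

/-! ### the tiles at the apex -/

/-- the apex of the notch -/
noncomputable def apx (N : ℤ) (τ : Ty) (i : ℤ) : ℂ := ⟨4 * i + 2, 4 * hei τ - up N τ i⟩

/-- a tile of the tiling with the tip of a tooth at the apex -/
structure Tip (N : ℤ) (τ : Ty) (i : ℤ) (T : Set ℂ) (τ' : Ty) (h : ℂ ≃ᵢ ℂ) (j : ℤ)
    (s n1 n2 : ℝ) : Prop where
  img : T = h '' Proto N τ'
  j0 : 0 ≤ j
  j1 : j < wid N τ'
  pos : 0 < dn N τ' j
  s1 : s = 1 ∨ s = -1
  n : n1 ^ 2 + n2 ^ 2 = 1
  map : ∀ x y : ℝ, h ⟨4 * j + 2 + x, -dn N τ' j + y⟩ =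
    apx N τ i + ⟨s * n2 * x + n1 * y, -(s * n1) * x + n2 * y⟩
  n2p : 0 < n2
  ang : (1 + up N τ i * dn N τ' j) * |n1| ≤ (dn N τ' j - up N τ i) * n2

lemma exists_tip {N : ℤ} (hN : 0 ≤ N) {F : Set (Set ℂ)} (hF : Tlg N F) {τ : Ty}
    (h0 : Proto N τ ∈ F) {i : ℤ} (hi0 : 0 ≤ i) (hi1 : i < wid N τ) (hH : 0 < up N τ i)
    {T : Set ℂ} (hT : T ∈ F) (hne : T ≠ Proto N τ) (hv : apx N τ i ∈ T) :
    ∃ (τ' : Ty) (h : ℂ ≃ᵢ ℂ) (j : ℤ) (s n1 n2 : ℝ), Tip N τ i T τ' h j s n1 n2 := by
  set H : ℝ := up N τ i with hHd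
  have hH65 : 6 / 5 ≤ H := by
    rcases up_bd N τ i with h | h
    · rw [← hHd] at h; rw [h] at hH; exact absurd hH (lt_irrefl _)
    · exact h.1
  obtain ⟨τ', h, rfl⟩ := hF.tile T hT
  obtain ⟨u, hu, hhu⟩ := hv
  obtain ⟨s, n1, n2, hs, hn, hf⟩ := iso_real h
  have hdisj := hF.disj _ hT _ h0 hne
  -- directions into the tile stay in the gap
  have gap : ∀ x y : ℝ, (∃ ε0 : ℝ, 0 < ε0 ∧ ∀ ε : ℝ, 0 < ε → ε < ε0 →
      (⟨u.re + ε * x, u.im + ε * y⟩ : ℂ) ∈ interior (Proto N τ')) →
      H * |s * n2 * x + n1 * y| ≤ -(s * n1) * x + n2 * y := by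
    rintro x y ⟨ε0, hε0, hε⟩
    set X : ℝ := s * n2 * x + n1 * y with hX
    set Y : ℝ := -(s * n1) * x + n2 * y with hY
    by_contra hc
    push Not at hc
    set c : ℝ := |X| + |Y| + 1 with hcd
    have hc0 : 0 < c := by positivity
    set ε : ℝ := min (ε0 / 2) (1 / (2 * c)) with hεd
    have he0 : 0 < ε := lt_min (by positivity) (by positivity)
    have he1 : ε < ε0 := lt_of_le_of_lt (min_le_left _ _) (by linarith)
    have he2 : ε * c ≤ 1 / 2 := by
      calc ε * c ≤ 1 / (2 * c) * c := mul_le_mul_of_nonneg_right (min_le_right _ _) hc0.le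
        _ = 1 / 2 := by field_simp
    have hXe : |ε * X| < 1 := by
      rw [abs_mul, abs_of_pos he0]
      have : ε * |X| ≤ ε * c := mul_le_mul_of_nonneg_left
        (by rw [hcd]; linarith [abs_nonneg Y]) he0.le
      linarith
    have hYe : |ε * Y| < 1 := by
      rw [abs_mul, abs_of_pos he0]
      have : ε * |Y| ≤ ε * c := mul_le_mul_of_nonneg_left
        (by rw [hcd]; linarith [abs_nonneg X]) he0.le
      linarith
    have hlt : ε * Y < up N τ i * |ε * X| := by
      rw [abs_mul, abs_of_pos he0, ← hHd]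
      have := mul_lt_mul_of_pos_left hc he0
      linarith
    have hm1 := notch_int τ hi0 hi1 hXe hYe hlt
    have hm2 : (⟨4 * (i : ℝ) + 2 + ε * X, 4 * hei τ - up N τ i + ε * Y⟩ : ℂ) ∈
        interior (h '' Proto N τ') := by
      rw [img_int]
      refine ⟨_, hε ε he0 he1, ?_⟩
      have e : (⟨u.re + ε * x, u.im + ε * y⟩ : ℂ) = u + ⟨ε * x, ε * y⟩ := by
        apply Complex.ext <;> simp
      rw [e, hf, hhu]
      apply Complex.ext
      · simp only [apx, Complex.add_re]
        rw [hX]; ring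
      · simp only [apx, Complex.add_im]
        rw [hY]; ring
    exact disjoint_left.1 hdisj hm2 hm1
  rcases quad hN τ' hu with ⟨j, j0, j1, hpos, hre, him⟩ | ⟨s1, s2, δ, hs1, hs2, hδ, hq⟩
  · -- a tip
    have hmap : ∀ x y : ℝ, h ⟨4 * j + 2 + x, -dn N τ' j + y⟩ =
        apx N τ i + ⟨s * n2 * x + n1 * y, -(s * n1) * x + n2 * y⟩ := by
      intro x y
      have e : (⟨4 * (j : ℝ) + 2 + x, -dn N τ' j + y⟩ : ℂ) = u + ⟨x, y⟩ := by
        apply Complex.ext
        · simp [hre]
        · simp [him]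
      rw [e, hf, hhu]
    set H' : ℝ := dn N τ' j with hH'
    have hray : ∀ x : ℝ, (x = 1 ∨ x = -1) → ∀ b : ℝ, 0 < b →
        H * |s * n2 * x + n1 * (H' + b)| ≤ -(s * n1) * x + n2 * (H' + b) := by
      intro x hx b hb
      have hxa : |x| = 1 := by rcases hx with rfl | rfl <;> norm_num
      apply gap
      refine ⟨1 / (H' + b + 1), by positivity, ?_⟩
      intro ε he1 he2
      have hlt : ε * (H' + b + 1) < 1 := by
        rw [lt_div_iff₀ (by positivity)] at he2; exact he2
      have hε1 : ε < 1 := by nlinarith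
      have e : (⟨u.re + ε * x, u.im + ε * (H' + b)⟩ : ℂ) =
          ⟨4 * j + 2 + ε * x, -dn N τ' j + ε * (H' + b)⟩ := by
        rw [hre, him]
      rw [e]
      apply tip_int τ' j0 j1
      · rw [abs_mul, abs_of_pos he1, hxa, mul_one]; exact hε1
      · nlinarith
      · rw [abs_mul, abs_of_pos he1, hxa, mul_one, ← hH']
        nlinarith
    have hlim : ∀ x : ℝ, (x = 1 ∨ x = -1) →
        H * |s * n2 * x + n1 * H'| ≤ -(s * n1) * x + n2 * H' := by
      intro x hx
      apply lim_aux (q := n1) (t := n2) (by linarith)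
      intro b hb
      have := hray x hx b hb
      have e1 : s * n2 * x + n1 * H' + b * n1 = s * n2 * x + n1 * (H' + b) := by ring
      have e2 : -(s * n1) * x + n2 * H' + b * n2 = -(s * n1) * x + n2 * (H' + b) := by ring
      rw [e1, e2]
      exact this
    have hp := hlim 1 (Or.inl rfl)
    have hm := hlim (-1) (Or.inr rfl)
    have hci : 0 < n2 ∧ (1 + H * H') * |n1| ≤ (H' - H) * n2 := by
      apply cone_in hH65 hn hpos
      · rcases hs with rfl | rfl
        · have e1 : 1 * n2 * 1 + n1 * H' = n2 + n1 * H' := by ring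
          have e2 : -(1 * n1) * 1 + n2 * H' = -n1 + n2 * H' := by ring
          rw [e1, e2] at hp; exact hp
        · have e1 : -1 * n2 * -1 + n1 * H' = n2 + n1 * H' := by ring
          have e2 : -(-1 * n1) * -1 + n2 * H' = -n1 + n2 * H' := by ring
          rw [e1, e2] at hm; exact hm
      · rcases hs with rfl | rfl
        · have e1 : 1 * n2 * -1 + n1 * H' = -n2 + n1 * H' := by ring
          have e2 : -(1 * n1) * -1 + n2 * H' = n1 + n2 * H' := by ring
          rw [e1, e2] at hm; exact hm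
        · have e1 : -1 * n2 * 1 + n1 * H' = -n2 + n1 * H' := by ring
          have e2 : -(-1 * n1) * 1 + n2 * H' = n1 + n2 * H' := by ring
          rw [e1, e2] at hp; exact hp
    exact ⟨τ', h, j, s, n1, n2, rfl, j0, j1, hpos, hs, hn, hmap, hci.1, hci.2⟩
  · -- a quadrant: impossible
    exfalso
    have hs1' : s1 * s1 = 1 := by rcases hs1 with rfl | rfl <;> norm_num
    have hs2' : s2 * s2 = 1 := by rcases hs2 with rfl | rfl <;> norm_num
    have hss : s * s = 1 := by rcases hs with rfl | rfl <;> norm_num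
    have hsub : {z : ℂ | (0 < s1 * (z.re - u.re) ∧ s1 * (z.re - u.re) < δ) ∧
        (0 < s2 * (z.im - u.im) ∧ s2 * (z.im - u.im) < δ)} ⊆ Proto N τ' := by
      rintro z ⟨⟨a1, a2⟩, b1, b2⟩
      have := hq _ _ a1.le a2.le b1.le b2.le
      have e : (⟨u.re + s1 * (s1 * (z.re - u.re)), u.im + s2 * (s2 * (z.im - u.im))⟩ : ℂ) = z := by
        apply Complex.ext
        · show u.re + s1 * (s1 * (z.re - u.re)) = z.re
          rw [← mul_assoc, hs1']; ring
        · show u.im + s2 * (s2 * (z.im - u.im)) = z.im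
          rw [← mul_assoc, hs2']; ring
      rw [e] at this
      exact this
    have hopen : IsOpen {z : ℂ | (0 < s1 * (z.re - u.re) ∧ s1 * (z.re - u.re) < δ) ∧
        (0 < s2 * (z.im - u.im) ∧ s2 * (z.im - u.im) < δ)} := by
      have hr := Complex.continuous_re
      have hi := Complex.continuous_im
      have o1 : IsOpen {z : ℂ | 0 < s1 * (z.re - u.re)} :=
        isOpen_lt continuous_const (by fun_prop)
      have o2 : IsOpen {z : ℂ | s1 * (z.re - u.re) < δ} :=
        isOpen_lt (by fun_prop) continuous_const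
      have o3 : IsOpen {z : ℂ | 0 < s2 * (z.im - u.im)} :=
        isOpen_lt continuous_const (by fun_prop)
      have o4 : IsOpen {z : ℂ | s2 * (z.im - u.im) < δ} :=
        isOpen_lt (by fun_prop) continuous_const
      exact (o1.inter o2).inter (o3.inter o4)
    have hint := interior_maximal hsub hopen
    have hray : ∀ a b : ℝ, 0 < a → 0 < b →
        H * |s * n2 * (s1 * a) + n1 * (s2 * b)| ≤ -(s * n1) * (s1 * a) + n2 * (s2 * b) := by
      intro a b ha hb
      apply gap
      refine ⟨δ / (a + b), by positivity, ?_⟩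
      intro ε he1 he2
      rw [lt_div_iff₀ (by positivity)] at he2
      apply hint
      have e1 : s1 * (u.re + ε * (s1 * a) - u.re) = ε * a := by
        have : s1 * (u.re + ε * (s1 * a) - u.re) = s1 * s1 * (ε * a) := by ring
        rw [this, hs1', one_mul]
      have e2 : s2 * (u.im + ε * (s2 * b) - u.im) = ε * b := by
        have : s2 * (u.im + ε * (s2 * b) - u.im) = s2 * s2 * (ε * b) := by ring
        rw [this, hs2', one_mul]
      refine ⟨⟨?_, ?_⟩, ?_, ?_⟩
      · show 0 < s1 * (u.re + ε * (s1 * a) - u.re)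
        rw [e1]; positivity
      · show s1 * (u.re + ε * (s1 * a) - u.re) < δ
        rw [e1]; nlinarith
      · show 0 < s2 * (u.im + ε * (s2 * b) - u.im)
        rw [e2]; positivity
      · show s2 * (u.im + ε * (s2 * b) - u.im) < δ
        rw [e2]; nlinarith
    have hr1 : H * |s * n2 * s1| ≤ -(s * n1) * s1 := by
      apply lim_aux (q := n1 * s2) (t := n2 * s2) (by linarith)
      intro b hb
      have := hray 1 b one_pos hb
      have e1 : s * n2 * s1 + b * (n1 * s2) = s * n2 * (s1 * 1) + n1 * (s2 * b) := by ring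
      have e2 : -(s * n1) * s1 + b * (n2 * s2) = -(s * n1) * (s1 * 1) + n2 * (s2 * b) := by ring
      rw [e1, e2]
      exact this
    have hr2 : H * |n1 * s2| ≤ n2 * s2 := by
      apply lim_aux (q := s * n2 * s1) (t := -(s * n1) * s1) (by linarith)
      intro b hb
      have := hray b 1 hb one_pos
      have e1 : n1 * s2 + b * (s * n2 * s1) = s * n2 * (s1 * b) + n1 * (s2 * 1) := by ring
      have e2 : n2 * s2 + b * (-(s * n1) * s1) = -(s * n1) * (s1 * b) + n2 * (s2 * 1) := by ring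
      rw [e1, e2]
      exact this
    apply no_right hH65 hr1 hr2
    · ring
    · have e : (s * n2 * s1) ^ 2 + (-(s * n1) * s1) ^ 2
          = (s * s) * (s1 * s1) * (n1 ^ 2 + n2 ^ 2) := by ring
      rw [e, hss, hs1', hn]; norm_num
    · have e : (n1 * s2) ^ 2 + (n2 * s2) ^ 2 = (s2 * s2) * (n1 ^ 2 + n2 ^ 2) := by ring
      rw [e, hs2', hn]; norm_num

/-- a tile with a tip at the apex contains the vertical direction in its interior -/
lemma tip_up {N : ℤ} {τ : Ty} {i : ℤ} {T : Set ℂ} {τ' : Ty} {h : ℂ ≃ᵢ ℂ} {j : ℤ} {s n1 n2 : ℝ}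
    (hH : 0 < up N τ i) (ht : Tip N τ i T τ' h j s n1 n2) :
    apx N τ i + ⟨0, 1 / 2⟩ ∈ interior T := by
  obtain ⟨rfl, j0, j1, hpos, hs, hn, hmap, hn2, hang⟩ := ht
  have hss : s * s = 1 := by rcases hs with rfl | rfl <;> norm_num
  have hsa : |s| = 1 := by rcases hs with rfl | rfl <;> norm_num
  rw [img_int]
  refine ⟨⟨4 * j + 2 + -(s * n1) / 2, -dn N τ' j + n2 / 2⟩, ?_, ?_⟩
  · have hH65 : 6 / 5 ≤ up N τ i := by
      rcases up_bd N τ i with h | h
      · rw [h] at hH; exact absurd hH (lt_irrefl _)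
      · exact h.1
    have hH2 := (up_nn N τ i).2
    have hd2 := (dn_nn N τ' j).2
    set H := up N τ i
    set H' := dn N τ' j
    have hn1 : |n1| ≤ 1 := abs_le_one_iff_mul_self_le_one.2 (by nlinarith)
    have hn2' : n2 ≤ 1 := by nlinarith
    have ha : |-(s * n1) / 2| = |n1| / 2 := by
      rw [abs_div, abs_neg, abs_mul, hsa, one_mul]
      norm_num
    apply tip_int τ' j0 j1
    · rw [ha]; linarith
    · linarith
    · rw [ha]
      show H' * (|n1| / 2) < n2 / 2
      have h1 : H' * ((1 + H * H') * |n1|) ≤ H' * ((H' - H) * n2) :=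
        mul_le_mul_of_nonneg_left hang hpos.le
      have h2 : H' * (H' - H) < 1 + H * H' := by nlinarith
      have h3 : H' * (H' - H) * n2 < (1 + H * H') * n2 := mul_lt_mul_of_pos_right h2 hn2
      have h4 : (1 + H * H') * (H' * |n1|) < (1 + H * H') * n2 := by linarith
      have h5 : H' * |n1| < n2 := lt_of_mul_lt_mul_left h4 (by positivity)
      linarith
  · rw [hmap]
    congr 1
    apply Complex.ext
    · show s * n2 * (-(s * n1) / 2) + n1 * (n2 / 2) = 0
      have : s * n2 * (-(s * n1) / 2) + n1 * (n2 / 2) = (1 - s * s) * (n1 * n2) / 2 := by ring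
      rw [this, hss]; ring
    · show -(s * n1) * (-(s * n1) / 2) + n2 * (n2 / 2) = 1 / 2
      have : -(s * n1) * (-(s * n1) / 2) + n2 * (n2 / 2) = (s * s * n1 ^ 2 + n2 ^ 2) / 2 := by ring
      rw [this, hss, one_mul, hn]

/-- the main step, for the standard position -/
theorem force1 {N : ℤ} (hN : 0 ≤ N) {F : Set (Set ℂ)} (hF : Tlg N F) {τ : Ty}
    (h0 : Proto N τ ∈ F) {i : ℤ} (hi0 : 0 ≤ i) (hi1 : i < wid N τ) (hH : 0 < up N τ i) :
    ∃ (τ' : Ty) (i' : ℤ), 0 ≤ i' ∧ i' < wid N τ' ∧ dn N τ' i' = up N τ i ∧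
        (shift (4 * (i - i')) (4 * hei τ) '' Proto N τ' ∈ F ∨
          flip (4 * (i + i' + 1)) (4 * hei τ) '' Proto N τ' ∈ F) := by
  -- near the apex
  obtain ⟨r, hr, hball⟩ := Metric.eventually_nhds_iff.1 (LF hN hF (apx N τ i))
  have near : ∀ x y : ℝ, |x| + |y| < r → ∀ T ∈ F, apx N τ i + ⟨x, y⟩ ∈ T → apx N τ i ∈ T := by
    intro x y hxy T hT hm
    refine hball ?_ T hT hm
    rw [dist_eq_norm, add_sub_cancel_left]
    exact lt_of_le_of_lt (Complex.norm_le_abs_re_add_abs_im _) hxy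
  have apx_add : ∀ x y : ℝ, apx N τ i + ⟨x, y⟩ =
      (⟨4 * (i : ℝ) + 2 + x, 4 * hei τ - up N τ i + y⟩ : ℂ) := by
    intro x y
    apply Complex.ext <;> simp [apx]
  -- existence of a second tile
  obtain ⟨T, hT, hTm⟩ := hF.cov (apx N τ i + ⟨0, r / 2⟩)
  have hTne : T ≠ Proto N τ := by
    rintro rfl
    rw [apx_add] at hTm
    have := notch_mem τ (by norm_num) hTm
    rw [abs_zero, mul_zero] at this
    linarith
  have hTv : apx N τ i ∈ T := by
    apply near 0 (r / 2) _ T hT hTm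
    rw [abs_zero, zero_add, abs_of_pos (by linarith)]
    linarith
  obtain ⟨τ', h, j, s, n1, n2, ht⟩ := exists_tip hN hF h0 hi0 hi1 hH hT hTne hTv
  have hup := tip_up hH ht
  -- uniqueness
  have huniq : ∀ T' ∈ F, T' ≠ Proto N τ → apx N τ i ∈ T' → T' = T := by
    intro T' hT' hne hv
    by_contra hc
    obtain ⟨τ'', h'', j'', s'', n1'', n2'', ht''⟩ := exists_tip hN hF h0 hi0 hi1 hH hT' hne hv
    exact disjoint_left.1 (hF.disj T' hT' T hT hc) (tip_up hH ht'') hup
  obtain ⟨rfl, j0, j1, hpos, hs, hn, hmap, hn2, hang⟩ := ht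
  have hss : s * s = 1 := by rcases hs with rfl | rfl <;> norm_num
  have hsa : |s| = 1 := by rcases hs with rfl | rfl <;> norm_num
  have hH65 : 6 / 5 ≤ up N τ i := by
    rcases up_bd N τ i with h | h
    · rw [h] at hH; exact absurd hH (lt_irrefl _)
    · exact h.1
  set H := up N τ i with hHd
  set H' := dn N τ' j with hH'd
  -- the whole gap is in the tile
  have cov : ∀ x y : ℝ, H * |x| < y → H' * |n2 * x - n1 * y| ≤ n1 * x + n2 * y := by
    intro x y hxy
    set c : ℝ := |x| + |y| + |n2 * x - n1 * y| + 1 with hc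
    have hc0 : 0 < c := by positivity
    set ε : ℝ := min (1 / c) (r / (2 * c)) with hε
    have he0 : 0 < ε := lt_min (by positivity) (by positivity)
    have he1 : ε * c ≤ 1 := by
      calc ε * c ≤ 1 / c * c := mul_le_mul_of_nonneg_right (min_le_left _ _) hc0.le
        _ = 1 := by field_simp
    have he2 : ε * c ≤ r / 2 := by
      calc ε * c ≤ r / (2 * c) * c := mul_le_mul_of_nonneg_right (min_le_right _ _) hc0.le
        _ = r / 2 := by field_simp
    have hxc : ε * |x| ≤ ε * c := mul_le_mul_of_nonneg_left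
      (by rw [hc]; linarith [abs_nonneg y, abs_nonneg (n2 * x - n1 * y)]) he0.le
    obtain ⟨T', hT', hm'⟩ := hF.cov (apx N τ i + ⟨ε * x, ε * y⟩)
    have hv' : apx N τ i ∈ T' := by
      apply near _ _ _ T' hT' hm'
      rw [abs_mul, abs_mul, abs_of_pos he0]
      have : ε * |x| + ε * |y| ≤ ε * c := by
        rw [← mul_add]
        exact mul_le_mul_of_nonneg_left (by rw [hc]; linarith [abs_nonneg (n2 * x - n1 * y)]) he0.le
      linarith
    have hne' : T' ≠ Proto N τ := by
      rintro rfl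
      rw [apx_add] at hm'
      have h1 := notch_mem τ (by rw [abs_mul, abs_of_pos he0]; linarith) hm'
      rw [abs_mul, abs_of_pos he0, ← hHd] at h1
      nlinarith
    rw [huniq T' hT' hne' hv'] at hm'
    obtain ⟨w, hw, hww⟩ := hm'
    have e1 : h ⟨4 * j + 2 + s * (n2 * (ε * x) - n1 * (ε * y)),
        -dn N τ' j + (n1 * (ε * x) + n2 * (ε * y))⟩ = apx N τ i + ⟨ε * x, ε * y⟩ := by
      rw [hmap]
      congr 1
      apply Complex.ext
      · show s * n2 * (s * (n2 * (ε * x) - n1 * (ε * y))) + n1 * (n1 * (ε * x) + n2 * (ε * y))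
          = ε * x
        have : s * n2 * (s * (n2 * (ε * x) - n1 * (ε * y))) + n1 * (n1 * (ε * x) + n2 * (ε * y))
          = (s * s) * (n2 ^ 2 * (ε * x) - n1 * n2 * (ε * y)) + n1 ^ 2 * (ε * x)
            + n1 * n2 * (ε * y) := by ring
        rw [this, hss]
        linear_combination (ε * x) * hn
      · show -(s * n1) * (s * (n2 * (ε * x) - n1 * (ε * y))) + n2 * (n1 * (ε * x) + n2 * (ε * y))
          = ε * y
        have : -(s * n1) * (s * (n2 * (ε * x) - n1 * (ε * y))) + n2 * (n1 * (ε * x) + n2 * (ε * y))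
          = (s * s) * (-(n1 * n2) * (ε * x) + n1 ^ 2 * (ε * y)) + n1 * n2 * (ε * x)
            + n2 ^ 2 * (ε * y) := by ring
        rw [this, hss]
        linear_combination (ε * y) * hn
    have e2 := h.injective (hww.trans e1.symm)
    rw [e2] at hw
    have e3 : |s * (n2 * (ε * x) - n1 * (ε * y))| = ε * |n2 * x - n1 * y| := by
      have : n2 * (ε * x) - n1 * (ε * y) = ε * (n2 * x - n1 * y) := by ring
      rw [this, abs_mul, abs_mul, hsa, one_mul, abs_of_pos he0]
    have h2 := tip_mem τ' (by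
      rw [e3]
      have : ε * |n2 * x - n1 * y| ≤ ε * c := mul_le_mul_of_nonneg_left
        (by rw [hc]; linarith [abs_nonneg y, abs_nonneg x]) he0.le
      linarith) hw
    rw [e3, ← hH'd] at h2
    have h3 : ε * (H' * |n2 * x - n1 * y|) ≤ ε * (n1 * x + n2 * y) := by linarith
    exact le_of_mul_le_mul_left h3 he0
  have ray : ∀ x : ℝ, (x = 1 ∨ x = -1) → H' * |n2 * x - n1 * H| ≤ n1 * x + n2 * H := by
    intro x hx
    have hxa : |x| = 1 := by rcases hx with rfl | rfl <;> norm_num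
    apply lim_aux (q := -n1) (t := n2) hpos.le
    intro b hb
    have := cov x (H + b) (by rw [hxa]; linarith)
    have e1 : n2 * x - n1 * H + b * -n1 = n2 * x - n1 * (H + b) := by ring
    have e2 : n1 * x + n2 * H + b * n2 = n1 * x + n2 * (H + b) := by ring
    rw [e1, e2]
    exact this
  have hr1 := ray 1 (Or.inl rfl)
  have hr2 := ray (-1) (Or.inr rfl)
  have hr1' : H' * (n2 * 1 - n1 * H) ≤ n1 * 1 + n2 * H :=
    le_trans (mul_le_mul_of_nonneg_left (le_abs_self _) hpos.le) hr1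
  have hr2' : H' * -(n2 * -1 - n1 * H) ≤ n1 * -1 + n2 * H :=
    le_trans (mul_le_mul_of_nonneg_left (neg_le_abs _) hpos.le) hr2
  have hle : H' ≤ H := by
    have : H' * n2 ≤ H * n2 := by linarith
    exact le_of_mul_le_mul_right this hn2
  have hge : H ≤ H' := by
    have h1 : 0 ≤ (H' - H) * n2 := le_trans (by positivity) hang
    have h2 := nonneg_of_mul_nonneg_left h1 hn2
    linarith
  have heq : H' = H := le_antisymm hle hge
  have hn1 : n1 = 0 := by
    have h1 : (1 + H * H') * |n1| ≤ 0 := by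
      have : (H' - H) * n2 = 0 := by rw [heq]; ring
      linarith
    have h2 : 0 < 1 + H * H' := by positivity
    have h3 : |n1| ≤ 0 := by
      by_contra hc
      push Not at hc
      have := mul_pos h2 hc
      linarith
    exact abs_eq_zero.1 (le_antisymm h3 (abs_nonneg _))
  have hn2' : n2 = 1 := by
    rw [hn1] at hn
    nlinarith
  have hform : ∀ z : ℂ, h z = ⟨4 * i + 2 + s * (z.re - (4 * j + 2)), z.im + 4 * hei τ⟩ := by
    intro z
    have e : z = ⟨4 * j + 2 + (z.re - (4 * j + 2)), -dn N τ' j + (z.im + dn N τ' j)⟩ := by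
      apply Complex.ext <;> simp
    conv_lhs => rw [e]
    rw [hmap, apx_add, hn1, hn2']
    apply Complex.ext
    · show 4 * (i : ℝ) + 2 + (s * 1 * (z.re - (4 * j + 2)) + 0 * (z.im + dn N τ' j))
        = 4 * i + 2 + s * (z.re - (4 * j + 2))
      ring
    · show 4 * (hei τ : ℝ) - up N τ i + (-(s * 0) * (z.re - (4 * j + 2)) +
        1 * (z.im + dn N τ' j)) = z.im + 4 * hei τ
      rw [← hH'd, heq, hHd]
      ring
  refine ⟨τ', j, j0, j1, heq, ?_⟩
  rcases hs with hs | hs
  · left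
    have e : h '' Proto N τ' = shift (4 * (i - j)) (4 * hei τ) '' Proto N τ' := by
      apply image_congr
      intro z _
      rw [hform, shift_apply, hs]
      apply Complex.ext
      · show 4 * (i : ℝ) + 2 + 1 * (z.re - (4 * j + 2)) = z.re + 4 * (i - j)
        ring
      · rfl
    rw [← e]
    exact hT
  · right
    have e : h '' Proto N τ' = flip (4 * (i + j + 1)) (4 * hei τ) '' Proto N τ' := by
      apply image_congr
      intro z _
      rw [hform, flip_apply, hs]
      apply Complex.ext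
      · show 4 * (i : ℝ) + 2 + -1 * (z.re - (4 * j + 2)) = 4 * (i + j + 1) - z.re
        ring
      · rfl
    rw [← e]
    exact hT

/-- the image of a tiling -/
lemma tlg_img {N : ℤ} {F : Set (Set ℂ)} (hF : Tlg N F) (g : ℂ ≃ᵢ ℂ) :
    Tlg N ((fun T => g '' T) '' F) where
  tile := by
    rintro _ ⟨T, hT, rfl⟩
    obtain ⟨τ, h, rfl⟩ := hF.tile T hT
    exact ⟨τ, g * h, (img_mul g h _).symm⟩
  disj := by
    rintro _ ⟨T, hT, rfl⟩ _ ⟨T', hT', rfl⟩ hne
    show Disjoint (interior (g '' T)) (interior (g '' T'))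
    rw [img_int, img_int]
    exact (disjoint_image_iff g.injective).2 (hF.disj T hT T' hT' fun h => hne (by rw [h]))
  cov := by
    intro z
    obtain ⟨T, hT, hz⟩ := hF.cov (g.symm z)
    exact ⟨g '' T, ⟨T, hT, rfl⟩, g.symm z, hz, g.apply_symm_apply z⟩

end Fo

open Fo in
theorem force : StmForce := by
  intro N hN F hF g τ hg i hi0 hi1 hH
  have hF' := tlg_img hF g⁻¹
  have hcan : ∀ T : Set ℂ, g '' ((g⁻¹ : ℂ ≃ᵢ ℂ) '' T) = T := by
    intro T
    rw [← img_mul, mul_inv_cancel]
    exact image_id T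
  have hcan' : ∀ T : Set ℂ, (g⁻¹ : ℂ ≃ᵢ ℂ) '' (g '' T) = T := by
    intro T
    rw [← img_mul, inv_mul_cancel]
    exact image_id T
  have h0 : Proto N τ ∈ (fun T => (g⁻¹ : ℂ ≃ᵢ ℂ) '' T) '' F := ⟨_, hg, hcan' _⟩
  obtain ⟨τ', i', a, b, c, d⟩ := force1 hN hF' h0 hi0 hi1 hH
  refine ⟨τ', i', a, b, c, ?_⟩
  rcases d with ⟨T, hT, hd⟩ | ⟨T, hT, hd⟩
  · left
    rw [img_mul, ← hd]
    show g '' ((g⁻¹ : ℂ ≃ᵢ ℂ) '' T) ∈ F
    rw [hcan]
    exact hT
  · right
    rw [img_mul, ← hd]
    show g '' ((g⁻¹ : ℂ ≃ᵢ ℂ) '' T) ∈ F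
    rw [hcan]
    exact hT

end Pool.Agent.R175.Sur
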