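import Pool.Agent.R175.Sur.Defs

/-!
# Part PSI: a homeomorphism of the plane that straightens the keys (MP_ae4adf)
-/

set_option autoImplicit false

open Set Complex Filter Topology

namespace Pool.Agent.R175.Sur
namespace PsiAux

theorem locFin : LocallyFinite (fun n : ℤ => Icc (n : ℝ) (n + 1)) := by
  intro x
  refine ⟨Ioo (x - 1) (x + 1), Ioo_mem_nhds (by linarith) (by linarith), ?_⟩
  refine (Set.finite_Icc (⌊x⌋ - 2) (⌊x⌋ + 2)).subset ?_
  rintro n ⟨y, ⟨h1, h2⟩, h3, h4⟩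
  have a := Int.floor_le x
  have b := Int.lt_floor_add_one x
  constructor
  · have h : ((⌊x⌋ - 2 : ℤ) : ℝ) < n := by
      push_cast
      linarith
    exact (Int.cast_lt.mp h).le
  · have h : (n : ℝ) < ((⌊x⌋ + 2 : ℤ) : ℝ) := by
      push_cast
      linarith
    exact (Int.cast_lt.mp h).le

theorem glue {X Y : Type*} [TopologicalSpace X] [TopologicalSpace Y] {f : X → Y} (u : X → ℝ)
    (hu : Continuous u) (g : ℤ → X → Y) (hg : ∀ n, Continuous (g n))
    (h : ∀ n : ℤ, ∀ x, (n : ℝ) ≤ u x → u x ≤ n + 1 → f x = g n x) : Continuous f := by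
  refine (locFin.preimage_continuous hu).continuous ?_ (fun n => isClosed_Icc.preimage hu) ?_
  · ext x
    simp only [mem_iUnion, mem_preimage, mem_Icc, mem_univ, iff_true]
    exact ⟨⌊u x⌋, Int.floor_le _, (Int.lt_floor_add_one _).le⟩
  · intro n
    exact (hg n).continuousOn.congr (fun x hx => h n x hx.1 hx.2)

theorem prof_eq (k : ℤ → ℝ) {n : ℤ} {x : ℝ} (h1 : (n : ℝ) ≤ x / 4) (h2 : x / 4 ≤ n + 1) :
    prof k x = k n * max 0 (1 - |x - 4 * n - 2|) := by
  rcases h2.lt_or_eq with h | h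
  · have e : ⌊x / 4⌋ = n := Int.floor_eq_iff.mpr ⟨h1, h⟩
    rw [prof, e]
  · have e : ⌊x / 4⌋ = n + 1 := by
      rw [h]
      exact_mod_cast Int.floor_intCast (n + 1)
    have hx : x = 4 * n + 4 := by linarith
    rw [prof, e, hx]
    push_cast
    rw [show (4 * (n : ℝ) + 4 - 4 * (n + 1) - 2) = -2 by ring,
      show (4 * (n : ℝ) + 4 - 4 * n - 2) = 2 by ring, abs_neg, abs_two,
      max_eq_left (by norm_num : (1 : ℝ) - 2 ≤ 0), mul_zero, mul_zero]

theorem prof_cont (k : ℤ → ℝ) : Continuous (prof k) := by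
  refine glue (fun x => x / 4) (by fun_prop) (fun n x => k n * max 0 (1 - |x - 4 * n - 2|)) ?_ ?_
  · intro n
    fun_prop
  · intro n x h1 h2
    exact prof_eq k h1 h2

theorem tri_bd (t : ℝ) : 0 ≤ max 0 (1 - |t|) ∧ max 0 (1 - |t|) ≤ 1 :=
  ⟨le_max_left _ _, max_le (by norm_num) (by linarith [abs_nonneg t])⟩

theorem prof_bd {k : ℤ → ℝ} (hk : ∀ i, 0 ≤ k i ∧ k i ≤ 2) (x : ℝ) :
    0 ≤ prof k x ∧ prof k x ≤ 2 := by
  have h1 := hk ⌊x / 4⌋
  have h2 := tri_bd (x - 4 * ⌊x / 4⌋ - 2)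
  rw [prof]
  constructor
  · exact mul_nonneg h1.1 h2.1
  · calc k ⌊x / 4⌋ * max 0 (1 - |x - 4 * ⌊x / 4⌋ - 2|) ≤ 2 * 1 :=
        mul_le_mul h1.2 h2.2 h2.1 (by norm_num)
      _ = 2 := by norm_num

theorem prof_shift {k k' : ℤ → ℝ} {l w : ℤ} (h : ∀ i : ℤ, 0 ≤ i → i < w → k (l + i) = k' i)
    {x : ℝ} (h1 : 4 * (l : ℝ) ≤ x) (h2 : x ≤ 4 * (l + w)) : prof k x = prof k' (x - 4 * l) := by
  have e : (x - 4 * l) / 4 = x / 4 - l := by ring
  have e2 : ⌊(x - 4 * l) / 4⌋ = ⌊x / 4⌋ - l := by rw [e, Int.floor_sub_intCast]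
  rcases h2.lt_or_eq with h3 | h3
  · have a1 : l ≤ ⌊x / 4⌋ := Int.le_floor.mpr (by linarith)
    have a2 : ⌊x / 4⌋ < l + w := Int.floor_lt.mpr (by push_cast; linarith)
    have a3 := h (⌊x / 4⌋ - l) (by omega) (by omega)
    rw [show l + (⌊x / 4⌋ - l) = ⌊x / 4⌋ by ring] at a3
    rw [prof, prof, e2, a3]
    congr 4
    push_cast
    ring
  · have a1 : x / 4 = ((l + w : ℤ) : ℝ) := by
      rw [h3]
      push_cast
      ring
    have a2 : ⌊x / 4⌋ = l + w := by rw [a1, Int.floor_intCast]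
    rw [prof, prof, e2, a2, h3]
    push_cast
    rw [show (4 * ((l : ℝ) + w) - 4 * (l + w) - 2) = -2 by ring,
      show (4 * ((l : ℝ) + w) - 4 * l - 4 * (l + w - l) - 2) = -2 by ring, abs_neg, abs_two,
      max_eq_left (by norm_num : (1 : ℝ) - 2 ≤ 0), mul_zero, mul_zero]

/-- Piecewise linear interpolation. -/
noncomputable def ipl (a : ℤ → ℝ) (u : ℝ) : ℝ := a ⌊u⌋ + (u - ⌊u⌋) * (a (⌊u⌋ + 1) - a ⌊u⌋)

theorem ipl_eq (a : ℤ → ℝ) {n : ℤ} {u : ℝ} (h1 : (n : ℝ) ≤ u) (h2 : u ≤ n + 1) :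
    ipl a u = a n + (u - n) * (a (n + 1) - a n) := by
  rcases h2.lt_or_eq with h | h
  · have e : ⌊u⌋ = n := Int.floor_eq_iff.mpr ⟨h1, h⟩
    rw [ipl, e]
  · have e : ⌊u⌋ = n + 1 := by
      rw [h]
      exact_mod_cast Int.floor_intCast (n + 1)
    rw [ipl, e, h]
    push_cast
    ring

theorem ipl_int (a : ℤ → ℝ) (n : ℤ) : ipl a n = a n := by
  rw [ipl_eq a le_rfl (by linarith), sub_self, zero_mul, add_zero]

theorem ipl_mono {a : ℤ → ℝ} (ha : Monotone a) : Monotone (ipl a) := by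
  intro u v huv
  have hu1 := Int.floor_le u
  have hu2 := (Int.lt_floor_add_one u).le
  have hv1 := Int.floor_le v
  have hv2 := (Int.lt_floor_add_one v).le
  have hmn : ⌊u⌋ ≤ ⌊v⌋ := Int.floor_mono huv
  have d1 : 0 ≤ a (⌊u⌋ + 1) - a ⌊u⌋ := sub_nonneg.mpr (ha (by omega))
  have d2 : 0 ≤ a (⌊v⌋ + 1) - a ⌊v⌋ := sub_nonneg.mpr (ha (by omega))
  rcases hmn.eq_or_lt with h | h
  · rw [ipl, ipl, ← h]
    have := mul_le_mul_of_nonneg_right (sub_le_sub_right huv (⌊u⌋ : ℝ)) d1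
    linarith
  · have h3 : a (⌊u⌋ + 1) ≤ a ⌊v⌋ := ha (by omega)
    have h4 : ipl a u ≤ a (⌊u⌋ + 1) := by
      rw [ipl]
      nlinarith
    have h5 : a ⌊v⌋ ≤ ipl a v := by
      rw [ipl]
      nlinarith
    linarith

theorem ipl_lin (g : ℤ → ℝ) (c u : ℝ) : ipl (fun n => c * n - g n) u = c * u - ipl g u := by
  simp only [ipl]
  push_cast
  ring

theorem ipl_bd {g : ℤ → ℝ} (hg : ∀ i, 0 ≤ g i ∧ g i ≤ 2) (u : ℝ) :
    0 ≤ ipl g u ∧ ipl g u ≤ 2 := by
  have h1 := hg ⌊u⌋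
  have h2 := hg (⌊u⌋ + 1)
  have h3 := Int.floor_le u
  have h4 := (Int.lt_floor_add_one u).le
  rw [ipl]
  constructor <;> nlinarith

theorem dn_bd (N : ℤ) (τ : Ty) (i : ℤ) : 0 ≤ dn N τ i ∧ dn N τ i ≤ 2 := by
  cases τ <;> simp only [dn] <;> (try split_ifs) <;> norm_num

theorem up_bd (N : ℤ) (τ : Ty) (i : ℤ) : 0 ≤ up N τ i ∧ up N τ i ≤ 2 := by
  cases τ <;> simp only [up] <;> (try split_ifs) <;> norm_num

theorem K_bd (N r c : ℤ) : 0 ≤ K N r c ∧ K N r c ≤ 2 := by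
  have hd := dn_bd N
  have hu := up_bd N
  rw [K]
  split_ifs
  all_goals first
    | exact hd _ _
    | exact hu _ _
    | norm_num

/-- The push down of the point `(x, 4 u)`. -/
noncomputable def G (N : ℤ) (x u : ℝ) : ℝ := ipl (fun ρ => prof (K N ρ) x) u

/-- The height of the image of `(x, v)`. -/
noncomputable def hh (N : ℤ) (x v : ℝ) : ℝ := v - G N x (v / 4)

theorem g_bd (N : ℤ) (x : ℝ) (ρ : ℤ) : 0 ≤ prof (K N ρ) x ∧ prof (K N ρ) x ≤ 2 :=
  prof_bd (fun i => K_bd N ρ i) x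

theorem hh_bd (N : ℤ) (x v : ℝ) : v - 2 ≤ hh N x v ∧ hh N x v ≤ v := by
  have := ipl_bd (g_bd N x) (v / 4)
  rw [hh, G]
  constructor <;> linarith

theorem hh_slope (N : ℤ) (x : ℝ) {v v' : ℝ} (h : v ≤ v') :
    (v' - v) / 2 ≤ hh N x v' - hh N x v := by
  have hm : Monotone (fun n : ℤ => 2 * (n : ℝ) - prof (K N n) x) := by
    apply monotone_int_of_le_succ
    intro n
    have h1 := g_bd N x n
    have h2 := g_bd N x (n + 1)
    push_cast
    linarith
  have h1 := ipl_mono hm (show v / 4 ≤ v' / 4 by linarith)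
  rw [ipl_lin, ipl_lin] at h1
  rw [hh, hh, G, G]
  linarith

theorem hh_dist (N : ℤ) (x v v' : ℝ) : |v - v'| ≤ 2 * |hh N x v - hh N x v'| := by
  rcases le_total v v' with h | h
  · have h1 := hh_slope N x h
    rw [abs_sub_comm v v', abs_sub_comm (hh N x v), abs_of_nonneg (by linarith : 0 ≤ v' - v),
      abs_of_nonneg (by linarith : 0 ≤ hh N x v' - hh N x v)]
    linarith
  · have h1 := hh_slope N x h
    rw [abs_of_nonneg (by linarith : 0 ≤ v - v'),
      abs_of_nonneg (by linarith : 0 ≤ hh N x v - hh N x v')]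
    linarith

theorem hh_le_iff (N : ℤ) (x v v' : ℝ) : hh N x v ≤ hh N x v' ↔ v ≤ v' := by
  constructor
  · intro h
    by_contra hc
    push Not at hc
    have := hh_slope N x hc.le
    linarith
  · intro h
    have := hh_slope N x h
    linarith

theorem hh_inj (N : ℤ) (x : ℝ) {v v' : ℝ} (h : hh N x v = hh N x v') : v = v' :=
  le_antisymm ((hh_le_iff N x v v').mp h.le) ((hh_le_iff N x v' v).mp h.ge)

theorem hh_cont (N : ℤ) : Continuous (fun p : ℝ × ℝ => hh N p.1 p.2) := by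
  have h : Continuous (fun p : ℝ × ℝ => G N p.1 (p.2 / 4)) := by
    refine glue (fun p => p.2 / 4) (by fun_prop) (fun n p => prof (K N n) p.1 +
      (p.2 / 4 - n) * (prof (K N (n + 1)) p.1 - prof (K N n) p.1)) ?_ ?_
    · intro n
      have h1 := (prof_cont (K N n)).comp (continuous_fst (X := ℝ) (Y := ℝ))
      have h2 := (prof_cont (K N (n + 1))).comp (continuous_fst (X := ℝ) (Y := ℝ))
      exact h1.add (((continuous_snd.div_const 4).sub continuous_const).mul (h2.sub h1))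
    · intro n p h1 h2
      exact ipl_eq _ h1 h2
  exact continuous_snd.sub h

theorem hh_surj (N : ℤ) (x y : ℝ) : ∃ v, hh N x v = y := by
  have hc : Continuous (fun v => hh N x v) :=
    (hh_cont N).comp (continuous_const.prodMk continuous_id)
  have h1 := (hh_bd N x y).2
  have h2 := (hh_bd N x (y + 2)).1
  have h3 := intermediate_value_Icc (show y ≤ y + 2 by linarith) hc.continuousOn
  obtain ⟨v, -, hv⟩ := h3 ⟨h1, by linarith⟩
  exact ⟨v, hv⟩

/-- The inverse. -/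
noncomputable def iv (N : ℤ) (x y : ℝ) : ℝ := Classical.choose (hh_surj N x y)

theorem hh_iv (N : ℤ) (x y : ℝ) : hh N x (iv N x y) = y := Classical.choose_spec (hh_surj N x y)

theorem iv_hh (N : ℤ) (x v : ℝ) : iv N x (hh N x v) = v := hh_inj N x (hh_iv N x _)

theorem cont_mk {X : Type*} [TopologicalSpace X] {f g : X → ℝ} (hf : Continuous f)
    (hg : Continuous g) : Continuous (fun z => (⟨f z, g z⟩ : ℂ)) := by
  have e : (fun z => (⟨f z, g z⟩ : ℂ)) = fun z => (f z : ℂ) + g z * I := by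
    funext z
    apply Complex.ext <;> simp
  rw [e]
  fun_prop

theorem hh_contC (N : ℤ) : Continuous (fun z : ℂ => hh N z.re z.im) :=
  (hh_cont N).comp (continuous_re.prodMk continuous_im)

theorem iv_contC (N : ℤ) : Continuous (fun z : ℂ => iv N z.re z.im) := by
  rw [continuous_iff_continuousAt]
  intro z₀
  have h1 : Continuous (fun z : ℂ => 2 * |z.im - hh N z.re (iv N z₀.re z₀.im)|) := by
    have h2 : Continuous (fun z : ℂ => hh N z.re (iv N z₀.re z₀.im)) :=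
      (hh_cont N).comp (continuous_re.prodMk continuous_const)
    exact continuous_const.mul (continuous_im.sub h2).abs
  have h3 : Tendsto (fun z : ℂ => 2 * |z.im - hh N z.re (iv N z₀.re z₀.im)|) (𝓝 z₀) (𝓝 0) := by
    have h4 := h1.tendsto z₀
    rw [hh_iv, sub_self, abs_zero, mul_zero] at h4
    exact h4
  apply tendsto_iff_dist_tendsto_zero.mpr
  refine squeeze_zero (fun _ => dist_nonneg) (fun z => ?_) h3
  rw [Real.dist_eq]
  have h5 := hh_dist N z.re (iv N z.re z.im) (iv N z₀.re z₀.im)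
  rwa [hh_iv] at h5

/-- The homeomorphism. -/
noncomputable def Psi (N : ℤ) : ℂ ≃ₜ ℂ where
  toFun z := ⟨z.re, hh N z.re z.im⟩
  invFun z := ⟨z.re, iv N z.re z.im⟩
  left_inv z := by
    apply Complex.ext
    · rfl
    · exact iv_hh N z.re z.im
  right_inv z := by
    apply Complex.ext
    · rfl
    · exact hh_iv N z.re z.im
  continuous_toFun := cont_mk continuous_re (hh_contC N)
  continuous_invFun := cont_mk continuous_re (iv_contC N)

theorem Psi_apply (N : ℤ) (z : ℂ) : Psi N z = ⟨z.re, hh N z.re z.im⟩ := rfl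

theorem hh_int (N : ℤ) (x : ℝ) (b : ℤ) : hh N x (4 * b) = 4 * b - prof (K N b) x := by
  rw [hh, G, show (4 * (b : ℝ)) / 4 = b by ring, ipl_int]

end PsiAux

open PsiAux

theorem psi : StmPsi := by
  intro N _
  refine ⟨Psi N, ?_⟩
  intro τ l b hk
  have key : ∀ x : ℝ, 4 * (l : ℝ) ≤ x → x ≤ 4 * (l + wid N τ) →
      hh N x (4 * b) = 4 * b - prof (dn N τ) (x - 4 * l) ∧
      hh N x (4 * (b + hei τ)) = 4 * (b + hei τ) - prof (up N τ) (x - 4 * l) := by
    intro x h1 h2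
    constructor
    · rw [hh_int, prof_shift (fun i hi hi' => (hk i hi hi').1) h1 h2]
    · have h3 := hh_int N x (b + hei τ)
      push_cast at h3
      rw [h3, prof_shift (fun i hi hi' => (hk i hi hi').2) h1 h2]
  ext w
  constructor
  · rintro ⟨z, ⟨h1, h2, h3, h4⟩, rfl⟩
    obtain ⟨k1, k2⟩ := key z.re h1 h2
    refine ⟨⟨z.re - 4 * l, hh N z.re z.im - 4 * b⟩, ⟨?_, ?_, ?_, ?_⟩, ?_⟩
    · change 0 ≤ z.re - 4 * (l : ℝ)
      linarith
    · change z.re - 4 * (l : ℝ) ≤ 4 * (wid N τ : ℝ)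
      linarith
    · change -prof (dn N τ) (z.re - 4 * l) ≤ hh N z.re z.im - 4 * b
      have := (hh_le_iff N z.re (4 * b) z.im).mpr h3
      linarith
    · change hh N z.re z.im - 4 * b ≤ 4 * (hei τ : ℝ) - prof (up N τ) (z.re - 4 * l)
      have := (hh_le_iff N z.re z.im (4 * (b + hei τ))).mpr h4
      linarith
    · rw [shift_apply, Psi_apply]
      apply Complex.ext
      · change z.re - 4 * (l : ℝ) + 4 * l = z.re
        ring
      · change hh N z.re z.im - 4 * (b : ℝ) + 4 * b = hh N z.re z.im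
        ring
  · rintro ⟨p, ⟨h1, h2, h3, h4⟩, rfl⟩
    have hx1 : 4 * (l : ℝ) ≤ p.re + 4 * l := by linarith
    have hx2 : p.re + 4 * (l : ℝ) ≤ 4 * (l + wid N τ) := by linarith
    obtain ⟨k1, k2⟩ := key (p.re + 4 * l) hx1 hx2
    rw [add_sub_cancel_right] at k1 k2
    have hv := hh_iv N (p.re + 4 * l) (p.im + 4 * b)
    refine ⟨⟨p.re + 4 * l, iv N (p.re + 4 * l) (p.im + 4 * b)⟩, ⟨hx1, hx2, ?_, ?_⟩, ?_⟩
    · apply (hh_le_iff N (p.re + 4 * l) _ _).mp
      rw [hv, k1]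
      linarith
    · apply (hh_le_iff N (p.re + 4 * l) _ _).mp
      rw [hv, k2]
      linarith
    · rw [shift_apply, Psi_apply]
      apply Complex.ext
      · rfl
      · exact hv

end Pool.Agent.R175.Sur
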