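import Pool.Agent.R175.Sur.Defs

/-!
# Part REG of the ten keyed bars: integer combinatorics of the patches
-/

set_option autoImplicit false

namespace Pool.Agent.R175.Sur

namespace RegAux

theorem lo_pos {N s r t : ℤ} (ht : 1 ≤ t) :
    (r = 4 * t → lo N s r = -(s * per N) + t * per N - per N + (3 * N + 3 + t)) ∧
    (r = 4 * t + 1 → lo N s r = -(s * per N) + t * per N) ∧
    (r = 4 * t + 2 → lo N s r = -(s * per N) + t * per N) ∧
    (r = 4 * t + 3 → lo N s r = -(s * per N) + t * per N + (3 * N + 3 + t + 1)) := by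
  refine ⟨?_, ?_, ?_, ?_⟩ <;> intro h
  · have h1 : r % 4 = 0 := by omega
    have h2 : r / 4 = t := by omega
    simp only [lo, h1, h2, xt]
    norm_num [ht]; ring
  · have h1 : r % 4 = 1 := by omega
    have h2 : r / 4 = t := by omega
    simp only [lo, h1, h2, xt]
    norm_num [ht]; ring
  · have h1 : r % 4 = 2 := by omega
    have h2 : r / 4 = t := by omega
    simp only [lo, h1, h2, abs_of_pos (by omega : (0 : ℤ) < t)]
    norm_num; ring
  · have h1 : r % 4 = 3 := by omega
    have h2 : r / 4 = t := by omega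
    simp only [lo, h1, h2, xt]
    norm_num [show 0 ≤ t by omega]; ring

theorem hi_pos {N s r t : ℤ} (ht : 1 ≤ t) :
    (r = 4 * t → hi N s r = s * per N - t * per N + (3 * N + 3 + t) + (4 * N + 8)) ∧
    (r = 4 * t + 1 → hi N s r = s * per N - t * per N + (4 * N + 5)) ∧
    (r = 4 * t + 2 → hi N s r = s * per N - t * per N + (4 * N + 5)) ∧
    (r = 4 * t + 3 → hi N s r = s * per N - t * per N - per N + (3 * N + 3 + t + 1) + (4 * N + 8)) := by
  refine ⟨?_, ?_, ?_, ?_⟩ <;> intro h
  · have h1 : r % 4 = 0 := by omega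
    have h2 : r / 4 = t := by omega
    simp only [hi, h1, h2, xt]
    norm_num [ht]; ring
  · have h1 : r % 4 = 1 := by omega
    have h2 : r / 4 = t := by omega
    simp only [hi, h1, h2, xt]
    norm_num [ht]; ring
  · have h1 : r % 4 = 2 := by omega
    have h2 : r / 4 = t := by omega
    simp only [hi, h1, h2, abs_of_pos (by omega : (0 : ℤ) < t)]
    norm_num; ring
  · have h1 : r % 4 = 3 := by omega
    have h2 : r / 4 = t := by omega
    simp only [hi, h1, h2, xt]
    norm_num [show 0 ≤ t by omega]; ring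

theorem lo_neg {N s r t : ℤ} (ht : t ≤ 0) :
    (r = 4 * t → lo N s r = -(s * per N) - t * per N + (3 * N + 3 + t)) ∧
    (r = 4 * t + 1 → lo N s r = -(s * per N) - t * per N + (3 * N + 3 + t)) ∧
    (r = 4 * t + 2 → lo N s r = -(s * per N) - t * per N) ∧
    (t ≤ -1 → r = 4 * t + 3 → lo N s r = -(s * per N) - t * per N) := by
  refine ⟨?_, ?_, ?_, ?_⟩
  · intro h
    have h1 : r % 4 = 0 := by omega
    have h2 : r / 4 = t := by omega
    simp only [lo, h1, h2, xt]
    norm_num [show ¬ 1 ≤ t by omega]; ring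
  · intro h
    have h1 : r % 4 = 1 := by omega
    have h2 : r / 4 = t := by omega
    simp only [lo, h1, h2, xt]
    norm_num [show ¬ 1 ≤ t by omega]; ring
  · intro h
    have h1 : r % 4 = 2 := by omega
    have h2 : r / 4 = t := by omega
    simp only [lo, h1, h2, abs_of_nonpos ht]
    norm_num; ring
  · intro h' h
    have h1 : r % 4 = 3 := by omega
    have h2 : r / 4 = t := by omega
    simp only [lo, h1, h2, xt]
    norm_num [show ¬ 0 ≤ t by omega]; ring

theorem hi_neg {N s r t : ℤ} (ht : t ≤ 0) :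
    (r = 4 * t → hi N s r = s * per N + t * per N - per N + (3 * N + 3 + t) + (4 * N + 8)) ∧
    (r = 4 * t + 1 → hi N s r = s * per N + t * per N - per N + (3 * N + 3 + t) + (4 * N + 8)) ∧
    (r = 4 * t + 2 → hi N s r = s * per N + t * per N + (4 * N + 5)) ∧
    (t ≤ -1 → r = 4 * t + 3 → hi N s r = s * per N + t * per N + (4 * N + 5)) := by
  refine ⟨?_, ?_, ?_, ?_⟩
  · intro h
    have h1 : r % 4 = 0 := by omega
    have h2 : r / 4 = t := by omega
    simp only [hi, h1, h2, xt]
    norm_num [show ¬ 1 ≤ t by omega]; ring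
  · intro h
    have h1 : r % 4 = 1 := by omega
    have h2 : r / 4 = t := by omega
    simp only [hi, h1, h2, xt]
    norm_num [show ¬ 1 ≤ t by omega]; ring
  · intro h
    have h1 : r % 4 = 2 := by omega
    have h2 : r / 4 = t := by omega
    simp only [hi, h1, h2, abs_of_nonpos ht]
    norm_num; ring
  · intro h' h
    have h1 : r % 4 = 3 := by omega
    have h2 : r / 4 = t := by omega
    simp only [hi, h1, h2, xt]
    norm_num [show ¬ 0 ≤ t by omega]; ring

theorem lohi_three {N s r : ℤ} (h : r = 3) :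
    lo N s r = -(s * per N) + (3 * N + 3 + 1) ∧
    hi N s r = s * per N - per N + (3 * N + 3 + 1) + (4 * N + 8) := by
  subst h
  constructor
  · simp only [lo, xt]; norm_num
  · simp only [hi, xt]; norm_num; ring

theorem prod_cases (a P : ℤ) (hP : 0 < P) :
    (a ≤ -2 ∧ a * P ≤ -2 * P) ∨ (a = -1 ∧ a * P = -P) ∨ (a = 0 ∧ a * P = 0) ∨
      (a = 1 ∧ a * P = P) ∨ (2 ≤ a ∧ 2 * P ≤ a * P) := by
  rcases lt_trichotomy a 0 with h | h | h
  · by_cases h1 : a = -1
    · right; left; exact ⟨h1, by rw [h1]; ring⟩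
    · left; exact ⟨by omega, mul_le_mul_of_nonneg_right (by omega) hP.le⟩
  · right; right; left; exact ⟨h, by rw [h]; ring⟩
  · by_cases h1 : a = 1
    · right; right; right; left; exact ⟨h1, by rw [h1]; ring⟩
    · right; right; right; right; exact ⟨by omega, mul_le_mul_of_nonneg_right (by omega) hP.le⟩

theorem mul_nn {a P m : ℤ} (hP : 0 < P) (hm : m < P) (h : 0 ≤ a * P + m) : 0 ≤ a * P := by
  rcases prod_cases a P hP with h | h | h | h | h <;> omega

theorem mul_ng {a P : ℤ} (hP : 0 < P) (h : a * P < 0) : a * P ≤ -P := by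
  rcases prod_cases a P hP with h | h | h | h | h <;> omega

theorem per_pos {N : ℤ} (hN : 1 ≤ N) : 0 < per N := by unfold per; omega

theorem part2 {N : ℤ} (hN : 1 ≤ N) {s : ℤ} (hs : 1 ≤ s) (hsN : s ≤ N) (r : ℤ) (h1 : 2 ≤ r)
    (h2 : r < 4 * s + 2) : lo N s r ≤ lo N s (r + 1) ∧ lo N s (r + 1) < hi N s (r + 1) ∧
      hi N s (r + 1) ≤ hi N s r := by
  have hP : per N = 6 * N + 9 := rfl
  obtain ⟨t, ht⟩ : ∃ t, r = 4 * t ∨ r = 4 * t + 1 ∨ r = 4 * t + 2 ∨ r = 4 * t + 3 :=
    ⟨r / 4, by omega⟩
  have hpc := prod_cases (s - t) (per N) (per_pos hN)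
  rw [sub_mul] at hpc
  have e1 : (t + 1) * per N = t * per N + per N := by ring
  rcases ht with ht | ht | ht | ht
  · have ht1 : 1 ≤ t := by omega
    rw [(lo_pos (N := N) (s := s) ht1).1 ht, (lo_pos (N := N) (s := s) (r := r + 1) ht1).2.1 (by omega),
      (hi_pos (N := N) (s := s) ht1).1 ht, (hi_pos (N := N) (s := s) (r := r + 1) ht1).2.1 (by omega)]
    omega
  · have ht1 : 1 ≤ t := by omega
    rw [(lo_pos (N := N) (s := s) ht1).2.1 ht,
      (lo_pos (N := N) (s := s) (r := r + 1) ht1).2.2.1 (by omega),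
      (hi_pos (N := N) (s := s) ht1).2.1 ht,
      (hi_pos (N := N) (s := s) (r := r + 1) ht1).2.2.1 (by omega)]
    omega
  · by_cases ht1 : 1 ≤ t
    · rw [(lo_pos (N := N) (s := s) ht1).2.2.1 ht,
        (lo_pos (N := N) (s := s) (r := r + 1) ht1).2.2.2 (by omega),
        (hi_pos (N := N) (s := s) ht1).2.2.1 ht,
        (hi_pos (N := N) (s := s) (r := r + 1) ht1).2.2.2 (by omega)]
      omega
    · have ht0 : t = 0 := by omega
      subst ht0
      have hr : r + 1 = 3 := by omega
      rw [(lo_neg (N := N) (s := s) (t := 0) le_rfl).2.2.1 ht,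
        (hi_neg (N := N) (s := s) (t := 0) le_rfl).2.2.1 ht,
        (lohi_three (N := N) (s := s) hr).1, (lohi_three (N := N) (s := s) hr).2]
      omega
  · by_cases ht1 : 1 ≤ t
    · rw [(lo_pos (N := N) (s := s) ht1).2.2.2 ht,
        (lo_pos (N := N) (s := s) (r := r + 1) (t := t + 1) (by omega)).1 (by omega),
        (hi_pos (N := N) (s := s) ht1).2.2.2 ht,
        (hi_pos (N := N) (s := s) (r := r + 1) (t := t + 1) (by omega)).1 (by omega), e1]
      omega
    · have ht0 : t = 0 := by omega
      subst ht0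
      have hr : r = 3 := by omega
      rw [(lo_pos (N := N) (s := s) (r := r + 1) (t := 1) le_rfl).1 (by omega),
        (hi_pos (N := N) (s := s) (r := r + 1) (t := 1) le_rfl).1 (by omega),
        (lohi_three (N := N) (s := s) hr).1, (lohi_three (N := N) (s := s) hr).2]
      omega

theorem part3 {N : ℤ} (hN : 1 ≤ N) {s : ℤ} (hs : 1 ≤ s) (hsN : s ≤ N) (r : ℤ)
    (h1 : -4 * s + 2 < r) (h2 : r ≤ 2) : lo N s r ≤ lo N s (r - 1) ∧
      lo N s (r - 1) < hi N s (r - 1) ∧ hi N s (r - 1) ≤ hi N s r := by
  have hP : per N = 6 * N + 9 := rfl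
  obtain ⟨t, ht⟩ : ∃ t, r = 4 * t ∨ r = 4 * t + 1 ∨ r = 4 * t + 2 ∨ r = 4 * t + 3 :=
    ⟨r / 4, by omega⟩
  have hpc := prod_cases (s + t) (per N) (per_pos hN)
  rw [add_mul] at hpc
  have e1 : (t - 1) * per N = t * per N - per N := by ring
  have ht0 : t ≤ 0 := by omega
  rcases ht with ht | ht | ht | ht
  · rw [(lo_neg (N := N) (s := s) ht0).1 ht,
      (lo_neg (N := N) (s := s) (r := r - 1) (t := t - 1) (by omega)).2.2.2 (by omega) (by omega),
      (hi_neg (N := N) (s := s) ht0).1 ht,
      (hi_neg (N := N) (s := s) (r := r - 1) (t := t - 1) (by omega)).2.2.2 (by omega) (by omega), e1]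
    omega
  · rw [(lo_neg (N := N) (s := s) ht0).2.1 ht,
      (lo_neg (N := N) (s := s) (r := r - 1) ht0).1 (by omega),
      (hi_neg (N := N) (s := s) ht0).2.1 ht,
      (hi_neg (N := N) (s := s) (r := r - 1) ht0).1 (by omega)]
    omega
  · rw [(lo_neg (N := N) (s := s) ht0).2.2.1 ht,
      (lo_neg (N := N) (s := s) (r := r - 1) ht0).2.1 (by omega),
      (hi_neg (N := N) (s := s) ht0).2.2.1 ht,
      (hi_neg (N := N) (s := s) (r := r - 1) ht0).2.1 (by omega)]
    omega
  · rw [(lo_neg (N := N) (s := s) ht0).2.2.2 (by omega) ht,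
      (lo_neg (N := N) (s := s) (r := r - 1) ht0).2.2.1 (by omega),
      (hi_neg (N := N) (s := s) ht0).2.2.2 (by omega) ht,
      (hi_neg (N := N) (s := s) (r := r - 1) ht0).2.2.1 (by omega)]
    omega

theorem part4 {N : ℤ} (hN : 1 ≤ N) {s : ℤ} (hs : 1 ≤ s) : lo N s 2 < hi N s 2 := by
  have hP := per_pos hN
  rw [(lo_neg (N := N) (s := s) (t := 0) le_rfl).2.2.1 (by norm_num),
    (hi_neg (N := N) (s := s) (t := 0) le_rfl).2.2.1 (by norm_num)]
  have : 0 < s * per N := mul_pos (by omega) hP
  omega

/-- all the values of `lo` and `hi` near a row -/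
theorem part5 {N : ℤ} (hN : 1 ≤ N) {s : ℤ} (hs : 1 ≤ s) (hsN : s ≤ N) (r r' : ℤ)
    (h1 : -4 * s + 2 ≤ r) (h2 : r ≤ 4 * s + 2) (h3 : r - 1 ≤ r') (h4 : r' ≤ r + 1) :
    lo N (s + 1) r' < lo N s r ∧ hi N s r < hi N (s + 1) r' := by
  have hP : per N = 6 * N + 9 := rfl
  obtain ⟨t, ht⟩ : ∃ t, r = 4 * t ∨ r = 4 * t + 1 ∨ r = 4 * t + 2 ∨ r = 4 * t + 3 :=
    ⟨r / 4, by omega⟩
  have e1 : (t + 1) * per N = t * per N + per N := by ring
  have e2 : (t - 1) * per N = t * per N - per N := by ring
  have e3 : (s + 1) * per N = s * per N + per N := by ring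
  have hr' : r' = r - 1 ∨ r' = r ∨ r' = r + 1 := by omega
  by_cases ht1 : 1 ≤ t
  · rcases ht with ht | ht | ht | ht
    · rw [(lo_pos (N := N) (s := s) ht1).1 ht, (hi_pos (N := N) (s := s) ht1).1 ht]
      rcases hr' with h | h | h
      · by_cases ht2 : 2 ≤ t
        · rw [(lo_pos (N := N) (s := s + 1) (r := r') (t := t - 1) (by omega)).2.2.2 (by omega),
            (hi_pos (N := N) (s := s + 1) (r := r') (t := t - 1) (by omega)).2.2.2 (by omega), e2, e3]
          omega
        · have ht0 : t = 1 := by omega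
          subst ht0
          have hr : r' = 3 := by omega
          rw [(lohi_three (N := N) (s := s + 1) hr).1, (lohi_three (N := N) (s := s + 1) hr).2, e3]
          omega
      · rw [(lo_pos (N := N) (s := s + 1) (r := r') ht1).1 (by omega),
          (hi_pos (N := N) (s := s + 1) (r := r') ht1).1 (by omega), e3]
        omega
      · rw [(lo_pos (N := N) (s := s + 1) (r := r') ht1).2.1 (by omega),
          (hi_pos (N := N) (s := s + 1) (r := r') ht1).2.1 (by omega), e3]
        omega
    · rw [(lo_pos (N := N) (s := s) ht1).2.1 ht, (hi_pos (N := N) (s := s) ht1).2.1 ht]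
      rcases hr' with h | h | h
      · rw [(lo_pos (N := N) (s := s + 1) (r := r') ht1).1 (by omega),
          (hi_pos (N := N) (s := s + 1) (r := r') ht1).1 (by omega), e3]
        omega
      · rw [(lo_pos (N := N) (s := s + 1) (r := r') ht1).2.1 (by omega),
          (hi_pos (N := N) (s := s + 1) (r := r') ht1).2.1 (by omega), e3]
        omega
      · rw [(lo_pos (N := N) (s := s + 1) (r := r') ht1).2.2.1 (by omega),
          (hi_pos (N := N) (s := s + 1) (r := r') ht1).2.2.1 (by omega), e3]
        omega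
    · rw [(lo_pos (N := N) (s := s) ht1).2.2.1 ht, (hi_pos (N := N) (s := s) ht1).2.2.1 ht]
      rcases hr' with h | h | h
      · rw [(lo_pos (N := N) (s := s + 1) (r := r') ht1).2.1 (by omega),
          (hi_pos (N := N) (s := s + 1) (r := r') ht1).2.1 (by omega), e3]
        omega
      · rw [(lo_pos (N := N) (s := s + 1) (r := r') ht1).2.2.1 (by omega),
          (hi_pos (N := N) (s := s + 1) (r := r') ht1).2.2.1 (by omega), e3]
        omega
      · rw [(lo_pos (N := N) (s := s + 1) (r := r') ht1).2.2.2 (by omega),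
          (hi_pos (N := N) (s := s + 1) (r := r') ht1).2.2.2 (by omega), e3]
        omega
    · rw [(lo_pos (N := N) (s := s) ht1).2.2.2 ht, (hi_pos (N := N) (s := s) ht1).2.2.2 ht]
      rcases hr' with h | h | h
      · rw [(lo_pos (N := N) (s := s + 1) (r := r') ht1).2.2.1 (by omega),
          (hi_pos (N := N) (s := s + 1) (r := r') ht1).2.2.1 (by omega), e3]
        omega
      · rw [(lo_pos (N := N) (s := s + 1) (r := r') ht1).2.2.2 (by omega),
          (hi_pos (N := N) (s := s + 1) (r := r') ht1).2.2.2 (by omega), e3]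
        omega
      · rw [(lo_pos (N := N) (s := s + 1) (r := r') (t := t + 1) (by omega)).1 (by omega),
          (hi_pos (N := N) (s := s + 1) (r := r') (t := t + 1) (by omega)).1 (by omega), e1, e3]
        omega
  · have ht0 : t ≤ 0 := by omega
    rcases ht with ht | ht | ht | ht
    · rw [(lo_neg (N := N) (s := s) ht0).1 ht, (hi_neg (N := N) (s := s) ht0).1 ht]
      rcases hr' with h | h | h
      · rw [(lo_neg (N := N) (s := s + 1) (r := r') (t := t - 1) (by omega)).2.2.2 (by omega) (by omega),
          (hi_neg (N := N) (s := s + 1) (r := r') (t := t - 1) (by omega)).2.2.2 (by omega) (by omega),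
          e2, e3]
        omega
      · rw [(lo_neg (N := N) (s := s + 1) (r := r') ht0).1 (by omega),
          (hi_neg (N := N) (s := s + 1) (r := r') ht0).1 (by omega), e3]
        omega
      · rw [(lo_neg (N := N) (s := s + 1) (r := r') ht0).2.1 (by omega),
          (hi_neg (N := N) (s := s + 1) (r := r') ht0).2.1 (by omega), e3]
        omega
    · rw [(lo_neg (N := N) (s := s) ht0).2.1 ht, (hi_neg (N := N) (s := s) ht0).2.1 ht]
      rcases hr' with h | h | h
      · rw [(lo_neg (N := N) (s := s + 1) (r := r') ht0).1 (by omega),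
          (hi_neg (N := N) (s := s + 1) (r := r') ht0).1 (by omega), e3]
        omega
      · rw [(lo_neg (N := N) (s := s + 1) (r := r') ht0).2.1 (by omega),
          (hi_neg (N := N) (s := s + 1) (r := r') ht0).2.1 (by omega), e3]
        omega
      · rw [(lo_neg (N := N) (s := s + 1) (r := r') ht0).2.2.1 (by omega),
          (hi_neg (N := N) (s := s + 1) (r := r') ht0).2.2.1 (by omega), e3]
        omega
    · rw [(lo_neg (N := N) (s := s) ht0).2.2.1 ht, (hi_neg (N := N) (s := s) ht0).2.2.1 ht]
      rcases hr' with h | h | h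
      · rw [(lo_neg (N := N) (s := s + 1) (r := r') ht0).2.1 (by omega),
          (hi_neg (N := N) (s := s + 1) (r := r') ht0).2.1 (by omega), e3]
        omega
      · rw [(lo_neg (N := N) (s := s + 1) (r := r') ht0).2.2.1 (by omega),
          (hi_neg (N := N) (s := s + 1) (r := r') ht0).2.2.1 (by omega), e3]
        omega
      · by_cases ht2 : t ≤ -1
        · rw [(lo_neg (N := N) (s := s + 1) (r := r') ht0).2.2.2 ht2 (by omega),
            (hi_neg (N := N) (s := s + 1) (r := r') ht0).2.2.2 ht2 (by omega), e3]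
          omega
        · have ht0' : t = 0 := by omega
          subst ht0'
          have hr : r' = 3 := by omega
          rw [(lohi_three (N := N) (s := s + 1) hr).1, (lohi_three (N := N) (s := s + 1) hr).2, e3]
          omega
    · by_cases ht2 : t ≤ -1
      · rw [(lo_neg (N := N) (s := s) ht0).2.2.2 ht2 ht, (hi_neg (N := N) (s := s) ht0).2.2.2 ht2 ht]
        rcases hr' with h | h | h
        · rw [(lo_neg (N := N) (s := s + 1) (r := r') ht0).2.2.1 (by omega),
            (hi_neg (N := N) (s := s + 1) (r := r') ht0).2.2.1 (by omega), e3]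
          omega
        · rw [(lo_neg (N := N) (s := s + 1) (r := r') ht0).2.2.2 ht2 (by omega),
            (hi_neg (N := N) (s := s + 1) (r := r') ht0).2.2.2 ht2 (by omega), e3]
          omega
        · rw [(lo_neg (N := N) (s := s + 1) (r := r') (t := t + 1) (by omega)).1 (by omega),
            (hi_neg (N := N) (s := s + 1) (r := r') (t := t + 1) (by omega)).1 (by omega), e1, e3]
          omega
      · have ht0' : t = 0 := by omega
        subst ht0'
        have hr3 : r = 3 := by omega
        rw [(lohi_three (N := N) (s := s) hr3).1, (lohi_three (N := N) (s := s) hr3).2]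
        rcases hr' with h | h | h
        · rw [(lo_neg (N := N) (s := s + 1) (r := r') (t := 0) le_rfl).2.2.1 (by omega),
            (hi_neg (N := N) (s := s + 1) (r := r') (t := 0) le_rfl).2.2.1 (by omega), e3]
          omega
        · have hr : r' = 3 := by omega
          rw [(lohi_three (N := N) (s := s + 1) hr).1, (lohi_three (N := N) (s := s + 1) hr).2, e3]
          omega
        · rw [(lo_pos (N := N) (s := s + 1) (r := r') (t := 1) le_rfl).1 (by omega),
            (hi_pos (N := N) (s := s + 1) (r := r') (t := 1) le_rfl).1 (by omega), e3]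
          omega

theorem regA {N : ℤ} (hN : 1 ≤ N) {s : ℤ} (hs : 1 ≤ s) (hsN : s ≤ N) {t k m c' : ℤ}
    (hm0 : 0 ≤ m) (hm1 : m < 4 * N + 5) (h : InReg N s (k * per N + m) (4 * t + 2))
    (h1 : k * per N ≤ c') (h2 : c' < k * per N + (4 * N + 5)) : InReg N s c' (4 * t + 2) := by
  have hP : per N = 6 * N + 9 := rfl
  obtain ⟨g1, g2, g3, g4⟩ := h
  by_cases ht1 : 1 ≤ t
  · have p1 := prod_cases (k + s - t) (per N) (per_pos hN)
    have p2 := prod_cases (k - s + t) (per N) (per_pos hN)
    rw [sub_mul, add_mul] at p1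
    rw [add_mul, sub_mul] at p2
    have e1 := (lo_pos (N := N) (s := s) ht1).2.2.1 rfl
    have e2 := (hi_pos (N := N) (s := s) ht1).2.2.1 rfl
    rw [e1] at g3
    rw [e2] at g4
    refine ⟨g1, g2, ?_, ?_⟩
    · rw [e1]; omega
    · rw [e2]; omega
  · have ht0 : t ≤ 0 := by omega
    have p1 := prod_cases (k + s + t) (per N) (per_pos hN)
    have p2 := prod_cases (k - s - t) (per N) (per_pos hN)
    rw [add_mul, add_mul] at p1
    rw [sub_mul, sub_mul] at p2
    have e1 := (lo_neg (N := N) (s := s) ht0).2.2.1 rfl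
    have e2 := (hi_neg (N := N) (s := s) ht0).2.2.1 rfl
    rw [e1] at g3
    rw [e2] at g4
    refine ⟨g1, g2, ?_, ?_⟩
    · rw [e1]; omega
    · rw [e2]; omega

theorem regB {N : ℤ} (hN : 1 ≤ N) {s : ℤ} (hs : 1 ≤ s) (hsN : s ≤ N) {t k m c' : ℤ}
    (hm0 : 0 ≤ m) (hm1 : m < per N) (h : InReg N s (k * per N + m) (4 * t))
    (hc : (3 * N + 3 + t ≤ m ∧ k * per N + (3 * N + 3 + t) ≤ c' ∧
        c' < k * per N + (3 * N + 3 + t) + (4 * N + 8)) ∨
      (m < N + 2 + t ∧ k * per N + (3 * N + 3 + t) - per N ≤ c' ∧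
        c' < k * per N + (3 * N + 3 + t) - per N + (4 * N + 8))) : InReg N s c' (4 * t) := by
  have hP : per N = 6 * N + 9 := rfl
  obtain ⟨g1, g2, g3, g4⟩ := h
  by_cases ht1 : 1 ≤ t
  · have p1 := prod_cases (k + s - t) (per N) (per_pos hN)
    have p2 := prod_cases (k - s + t) (per N) (per_pos hN)
    rw [sub_mul, add_mul] at p1
    rw [add_mul, sub_mul] at p2
    have e1 := (lo_pos (N := N) (s := s) ht1).1 rfl
    have e2 := (hi_pos (N := N) (s := s) ht1).1 rfl
    rw [e1] at g3
    rw [e2] at g4
    refine ⟨g1, g2, ?_, ?_⟩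
    · rw [e1]; omega
    · rw [e2]; omega
  · have ht0 : t ≤ 0 := by omega
    have p1 := prod_cases (k + s + t) (per N) (per_pos hN)
    have p2 := prod_cases (k - s - t) (per N) (per_pos hN)
    rw [add_mul, add_mul] at p1
    rw [sub_mul, sub_mul] at p2
    have e1 := (lo_neg (N := N) (s := s) ht0).1 rfl
    have e2 := (hi_neg (N := N) (s := s) ht0).1 rfl
    rw [e1] at g3
    rw [e2] at g4
    refine ⟨g1, g2, ?_, ?_⟩
    · rw [e1]; omega
    · rw [e2]; omega

theorem mul_ps {a P : ℤ} (hP : 0 < P) (h : 0 < a * P) : 0 < a := by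
  rcases prod_cases a P hP with h | h | h | h | h <;> omega

theorem mul_np {a P m : ℤ} (hP : 0 < P) (hm : 0 ≤ m) (h : a * P + m < P) : a * P ≤ 0 := by
  rcases prod_cases a P hP with h | h | h | h | h <;> omega

theorem mul_pp {a P : ℤ} (hP : 0 < P) (h : 0 < a * P) : P ≤ a * P := by
  rcases prod_cases a P hP with h | h | h | h | h <;> omega

/-- the values of `lo` and `hi` in the rows of the tiles `R`, `S` -/
theorem rsVals {N : ℤ} (hN : 1 ≤ N) {s t r : ℤ} (ht1 : -N ≤ t) (ht2 : t ≤ N)
    (hr : 4 * t + 1 ≤ r ∧ r ≤ 4 * t + 3) : ∃ u : ℤ, (1 ≤ t → u = s - t) ∧ (t ≤ 0 → u = s + t) ∧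
      -(u * per N) ≤ lo N s r ∧ lo N s r ≤ -(u * per N) + (4 * N + 4) ∧
      hi N s r ≤ u * per N + (4 * N + 5) ∧ u * per N + 2 ≤ hi N s r := by
  have hP : per N = 6 * N + 9 := rfl
  have hr3 : r = 4 * t + 1 ∨ r = 4 * t + 2 ∨ r = 4 * t + 3 := by omega
  by_cases h1 : 1 ≤ t
  · refine ⟨s - t, fun _ => rfl, fun h => by omega, ?_⟩
    rw [sub_mul]
    have L := lo_pos (N := N) (s := s) (r := r) h1
    have H := hi_pos (N := N) (s := s) (r := r) h1
    rcases hr3 with h | h | h
    · rw [L.2.1 h, H.2.1 h]; clear L H; omega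
    · rw [L.2.2.1 h, H.2.2.1 h]; clear L H; omega
    · rw [L.2.2.2 h, H.2.2.2 h]; clear L H; omega
  · refine ⟨s + t, fun h => by omega, fun _ => rfl, ?_⟩
    rw [add_mul]
    have h0 : t ≤ 0 := by omega
    have L := lo_neg (N := N) (s := s) (r := r) h0
    have H := hi_neg (N := N) (s := s) (r := r) h0
    rcases hr3 with h | h | h
    · rw [L.2.1 h, H.2.1 h]; clear L H; omega
    · rw [L.2.2.1 h, H.2.2.1 h]; clear L H; omega
    · by_cases h2 : t ≤ -1
      · rw [L.2.2.2 h2 h, H.2.2.2 h2 h]; clear L H; omega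
      · have h3 : t = 0 := by omega
        subst h3
        rw [(lohi_three (N := N) (s := s) (r := r) (by omega)).1,
          (lohi_three (N := N) (s := s) (r := r) (by omega)).2]
        clear L H; omega

theorem regRS {N : ℤ} (hN : 1 ≤ N) {s : ℤ} (hs : 1 ≤ s) (hsN : s ≤ N) {t k m c' r r' : ℤ}
    (hm0 : 4 * N + 5 ≤ m) (hm1 : m < per N) (h : InReg N s (k * per N + m) r)
    (hr : 4 * t + 1 ≤ r ∧ r ≤ 4 * t + 3) (hr' : 4 * t + 1 ≤ r' ∧ r' ≤ 4 * t + 3)
    (hc1 : k * per N + m - 1 ≤ c') (hc2 : c' ≤ k * per N + m + 1)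
    (hc3 : c' = k * per N + m - 1 → 4 * N + 6 ≤ m) : InReg N s c' r' := by
  have hPP := per_pos hN
  obtain ⟨g1, g2, g3, g4⟩ := h
  have ht1 : -N ≤ t := by omega
  have ht2 : t ≤ N := by omega
  obtain ⟨u, hu1, hu2, k1, k2, k3, k4⟩ := rsVals (s := s) hN ht1 ht2 hr
  obtain ⟨u', hu1', hu2', l1, l2, l3, l4⟩ := rsVals (s := s) hN ht1 ht2 hr'
  have huu : u' = u := by
    by_cases h1 : 1 ≤ t
    · rw [hu1 h1, hu1' h1]
    · rw [hu2 (by omega), hu2' (by omega)]
  subst huu
  have b1 : 0 ≤ (k + u') * per N := by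
    apply mul_nn hPP hm1
    rw [add_mul]; omega
  have b2 : (k - u') * per N ≤ -per N := by
    apply mul_ng hPP
    rw [sub_mul]; omega
  rw [add_mul] at b1
  rw [sub_mul] at b2
  have b3 : 0 < u' := by
    apply mul_ps hPP
    omega
  have b4 : 4 * t + 3 ≤ 4 * s + 2 ∧ -4 * s + 2 ≤ 4 * t + 1 := by
    by_cases h1 : 1 ≤ t
    · have := hu1 h1; constructor <;> omega
    · have := hu2 (by omega); constructor <;> omega
  clear hu1 hu2 hu1' hu2' k1 k2 k3 k4 g3 g4
  refine ⟨?_, ?_, ?_, ?_⟩
  · omega
  · omega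
  · omega
  · omega

theorem regDE {N : ℤ} (hN : 1 ≤ N) {s : ℤ} (hs : 1 ≤ s) (hsN : s ≤ N) {t k m r r' : ℤ}
    (hm0 : N + 2 + t ≤ m) (hm1 : m < 3 * N + 3 + t) (h : InReg N s (k * per N + m) r)
    (hr : 4 * t - 1 ≤ r ∧ r ≤ 4 * t + 1) (hr' : 4 * t - 1 ≤ r' ∧ r' ≤ 4 * t + 1) :
    InReg N s (k * per N + m) r' := by
  have hP : per N = 6 * N + 9 := rfl
  have hPP := per_pos hN
  obtain ⟨g1, g2, g3, g4⟩ := h
  have ht1 : -N ≤ t := by omega
  have ht2 : t ≤ N := by omega
  have hr3 : r = 4 * t - 1 ∨ r = 4 * t ∨ r = 4 * t + 1 := by omega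
  have hr3' : r' = 4 * t - 1 ∨ r' = 4 * t ∨ r' = 4 * t + 1 := by omega
  by_cases h1 : 1 ≤ t
  · -- values of the rows
    have vals : ∀ r : ℤ, (r = 4 * t - 1 ∨ r = 4 * t ∨ r = 4 * t + 1) →
        (lo N s r = -(s * per N) + t * per N - per N + (3 * N + 3 + t) ∧
          hi N s r = s * per N - t * per N + (3 * N + 3 + t) + (4 * N + 8)) ∨
        (lo N s r = -(s * per N) + t * per N ∧ hi N s r = s * per N - t * per N + (4 * N + 5)) := by
      intro r hr
      rcases hr with h | h | h
      · left
        by_cases h2 : 2 ≤ t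
        · rw [(lo_pos (N := N) (s := s) (r := r) (t := t - 1) (by omega)).2.2.2 (by omega),
            (hi_pos (N := N) (s := s) (r := r) (t := t - 1) (by omega)).2.2.2 (by omega)]
          constructor <;> ring
        · have h3 : t = 1 := by omega
          subst h3
          rw [(lohi_three (N := N) (s := s) (r := r) (by omega)).1,
            (lohi_three (N := N) (s := s) (r := r) (by omega)).2]
          constructor <;> ring
      · left
        exact ⟨(lo_pos (N := N) (s := s) h1).1 h, (hi_pos (N := N) (s := s) h1).1 h⟩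
      · right
        exact ⟨(lo_pos (N := N) (s := s) h1).2.1 h, (hi_pos (N := N) (s := s) h1).2.1 h⟩
    have v := vals r hr3
    have v' := vals r' hr3'
    have b1 : 0 ≤ k * per N + s * per N - t * per N := by
      rcases v with ⟨e1, -⟩ | ⟨e1, -⟩
      · rw [e1] at g3
        have : per N ≤ (k + s - t + 1) * per N := by
          apply mul_pp hPP
          have : (k + s - t + 1) * per N = k * per N + s * per N - t * per N + per N := by ring
          omega
        have e : (k + s - t + 1) * per N = k * per N + s * per N - t * per N + per N := by ring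
        omega
      · rw [e1] at g3
        have e : (k + s - t) * per N = k * per N + s * per N - t * per N := by ring
        have : 0 ≤ (k + s - t) * per N := by
          apply mul_nn (m := m) hPP (by omega)
          omega
        omega
    have b2 : k * per N - s * per N + t * per N ≤ 0 := by
      have e : (k - s + t) * per N = k * per N - s * per N + t * per N := by ring
      rcases v with ⟨-, e1⟩ | ⟨-, e1⟩
      · rw [e1] at g4
        have e' : (k - s + t - 1) * per N = k * per N - s * per N + t * per N - per N := by ring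
        have : (k - s + t - 1) * per N ≤ -per N := by
          apply mul_ng hPP
          omega
        omega
      · rw [e1] at g4
        have : (k - s + t) * per N ≤ 0 := by
          apply mul_np (m := m - (N + 2 + t)) hPP (by omega)
          omega
        omega
    clear v vals g3 g4
    refine ⟨by omega, by omega, ?_, ?_⟩
    · rcases v' with ⟨e1, -⟩ | ⟨e1, -⟩ <;> rw [e1] <;> omega
    · rcases v' with ⟨-, e1⟩ | ⟨-, e1⟩ <;> rw [e1] <;> omega
  · have h0 : t ≤ 0 := by omega
    have vals : ∀ r : ℤ, (r = 4 * t - 1 ∨ r = 4 * t ∨ r = 4 * t + 1) →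
        (lo N s r = -(s * per N) - t * per N + (3 * N + 3 + t) ∧
          hi N s r = s * per N + t * per N - per N + (3 * N + 3 + t) + (4 * N + 8)) ∨
        (lo N s r = -(s * per N) - t * per N + per N ∧
          hi N s r = s * per N + t * per N - per N + (4 * N + 5)) := by
      intro r hr
      rcases hr with h | h | h
      · right
        rw [(lo_neg (N := N) (s := s) (r := r) (t := t - 1) (by omega)).2.2.2 (by omega) (by omega),
          (hi_neg (N := N) (s := s) (r := r) (t := t - 1) (by omega)).2.2.2 (by omega) (by omega)]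
        constructor <;> ring
      · left
        exact ⟨(lo_neg (N := N) (s := s) h0).1 h, (hi_neg (N := N) (s := s) h0).1 h⟩
      · left
        exact ⟨(lo_neg (N := N) (s := s) h0).2.1 h, (hi_neg (N := N) (s := s) h0).2.1 h⟩
    have v := vals r hr3
    have v' := vals r' hr3'
    have b1 : per N ≤ k * per N + s * per N + t * per N := by
      have e : (k + s + t) * per N = k * per N + s * per N + t * per N := by ring
      rcases v with ⟨e1, -⟩ | ⟨e1, -⟩
      · rw [e1] at g3
        have : per N ≤ (k + s + t) * per N := by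
          apply mul_pp hPP
          omega
        omega
      · rw [e1] at g3
        have e' : (k + s + t - 1) * per N = k * per N + s * per N + t * per N - per N := by ring
        have : 0 ≤ (k + s + t - 1) * per N := by
          apply mul_nn (m := m) hPP (by omega)
          omega
        omega
    have b2 : k * per N - s * per N - t * per N ≤ -per N := by
      have e : (k - s - t) * per N = k * per N - s * per N - t * per N := by ring
      rcases v with ⟨-, e1⟩ | ⟨-, e1⟩
      · rw [e1] at g4
        have : (k - s - t) * per N ≤ -per N := by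
          apply mul_ng hPP
          omega
        omega
      · rw [e1] at g4
        have e' : (k - s - t + 1) * per N = k * per N - s * per N - t * per N + per N := by ring
        have : (k - s - t + 1) * per N ≤ 0 := by
          apply mul_np (m := m - (N + 2 + t)) hPP (by omega)
          omega
        omega
    clear v vals g3 g4
    refine ⟨by omega, by omega, ?_, ?_⟩
    · rcases v' with ⟨e1, -⟩ | ⟨e1, -⟩ <;> rw [e1] <;> omega
    · rcases v' with ⟨-, e1⟩ | ⟨-, e1⟩ <;> rw [e1] <;> omega

theorem part1 {N : ℤ} (hN : 1 ≤ N) {s : ℤ} (hs : 1 ≤ s) (hsN : s ≤ N) (c r : ℤ)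
    (h : InReg N s c r) (τ : Ty) (l b : ℤ) (hrt : rt N c r = (τ, l, b)) (c' r' : ℤ)
    (h1 : l ≤ c') (h2 : c' < l + wid N τ) (h3 : b ≤ r') (h4 : r' < b + hei τ) :
    InReg N s c' r' := by
  have hP : per N = 6 * N + 9 := rfl
  have hPP := per_pos hN
  have hrow1 := h.1
  have hrow2 := h.2.1
  have hm0 : 0 ≤ c % per N := Int.emod_nonneg _ (by omega)
  have hm1 : c % per N < per N := Int.emod_lt_of_pos _ hPP
  have hck : c = c / per N * per N + c % per N := by
    have := Int.emod_add_mul_ediv c (per N)
    rw [mul_comm] at this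
    omega
  obtain ⟨t, ht⟩ : ∃ t, r = 4 * t ∨ r = 4 * t + 1 ∨ r = 4 * t + 2 ∨ r = 4 * t + 3 :=
    ⟨r / 4, by omega⟩
  simp only [rt, xt] at hrt
  generalize hk : c / per N = k at hck
  generalize hm : c % per N = m at hck hm0 hm1 hrt
  -- a square of the tile is the square itself
  have triv : c' = c → r' = r → InReg N s c' r' := by
    rintro rfl rfl; exact h
  rcases ht with ht | ht | ht | ht
  · -- rows 4t
    have e1 : r % 4 = 0 := by omega
    have e2 : r / 4 = t := by omega
    simp only [e1, e2] at hrt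
    norm_num at hrt
    split_ifs at hrt with c1 c2 c3
    · simp only [Prod.mk.injEq] at hrt
      obtain ⟨rfl, rfl, rfl⟩ := hrt
      simp only [wid, hei] at h2 h4
      have hr : r' = 4 * t := by omega
      rw [hck, ht] at h
      rw [hr]
      exact regB hN hs hsN hm0 hm1 h (Or.inl ⟨by omega, by omega, by omega⟩)
    · simp only [Prod.mk.injEq] at hrt
      obtain ⟨rfl, rfl, rfl⟩ := hrt
      simp only [wid, hei] at h2 h4
      have hr : r' = 4 * t := by omega
      rw [hck, ht] at h
      rw [hr]
      exact regB hN hs hsN hm0 hm1 h (Or.inr ⟨by omega, by omega, by omega⟩)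
    · simp only [Prod.mk.injEq] at hrt
      obtain ⟨rfl, rfl, rfl⟩ := hrt
      simp only [wid, hei] at h2 h4
      have hcc : c' = k * per N + m := by omega
      rw [hck] at h
      rw [hcc]
      exact regDE hN hs hsN (t := t) (by omega) (by omega) h (by omega) (by omega)
    · simp only [Prod.mk.injEq] at hrt
      obtain ⟨rfl, rfl, rfl⟩ := hrt
      simp only [wid, hei] at h2 h4
      have hcc : c' = k * per N + m := by omega
      rw [hck] at h
      rw [hcc]
      exact regDE hN hs hsN (t := t) (by omega) (by omega) h (by omega) (by omega)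
  · -- rows 4t+1
    have e1 : r % 4 = 1 := by omega
    have e2 : r / 4 = t := by omega
    simp only [e1, e2] at hrt
    norm_num at hrt
    split_ifs at hrt with c1 c2 c3 c4 c5 c6 c7
    all_goals
      simp only [Prod.mk.injEq] at hrt
      obtain ⟨rfl, rfl, rfl⟩ := hrt
      simp only [wid, hei] at h2 h4
    all_goals first
      | exact triv (by omega) (by omega)
      | (rw [hck] at h
         exact regRS hN hs hsN (t := t) (by omega) hm1 h (by omega) (by omega) (by omega) (by omega)
          (by omega))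
      | (have hcc : c' = k * per N + m := by omega
         rw [hck] at h
         rw [hcc]
         exact regDE hN hs hsN (t := t) (by omega) (by omega) h (by omega) (by omega))
  · -- rows 4t+2
    have e1 : r % 4 = 2 := by omega
    have e2 : r / 4 = t := by omega
    simp only [e1, e2] at hrt
    norm_num at hrt
    split_ifs at hrt with c1 c2 c3
    all_goals
      simp only [Prod.mk.injEq] at hrt
      obtain ⟨rfl, rfl, rfl⟩ := hrt
      simp only [wid, hei] at h2 h4
    all_goals first
      | (rw [hck, ht] at h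
         rw [show r' = 4 * t + 2 by omega]
         exact regA hN hs hsN hm0 (by omega) h (by omega) (by omega))
      | (rw [hck] at h
         exact regRS hN hs hsN (t := t) (by omega) hm1 h (by omega) (by omega) (by omega) (by omega)
          (by omega))
  · -- rows 4t+3
    have e1 : r % 4 = 3 := by omega
    have e2 : r / 4 = t := by omega
    simp only [e1, e2] at hrt
    norm_num at hrt
    split_ifs at hrt with c1 c2 c3 c4 c5 c6 c7
    all_goals
      simp only [Prod.mk.injEq] at hrt
      obtain ⟨rfl, rfl, rfl⟩ := hrt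
      simp only [wid, hei] at h2 h4
    all_goals first
      | exact triv (by omega) (by omega)
      | (rw [hck] at h
         exact regRS hN hs hsN (t := t) (by omega) hm1 h (by omega) (by omega) (by omega) (by omega)
          (by omega))
      | (have hcc : c' = k * per N + m := by omega
         rw [hck] at h
         rw [hcc]
         exact regDE hN hs hsN (t := t + 1) (by omega) (by omega) h (by omega) (by omega))

end RegAux

/-- Part REG. -/
theorem sreg : StmReg := by
  intro N hN s hs hsN
  refine ⟨?_, ?_, ?_, RegAux.part4 hN hs, ?_⟩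
  · intro c r h τ l b hrt c' r' h1 h2 h3 h4
    exact RegAux.part1 hN hs hsN c r h τ l b hrt c' r' h1 h2 h3 h4
  · intro r h1 h2
    exact RegAux.part2 hN hs hsN r h1 h2
  · intro r h1 h2
    exact RegAux.part3 hN hs hsN r h1 h2
  · intro r r' h1 h2 h3 h4
    exact RegAux.part5 hN hs hsN r r' h1 h2 h3 h4

end Pool.Agent.R175.Sur
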