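import Pool.Agent.R175.Sur.Defs

set_option autoImplicit false

namespace Pool.Agent.R175.Sur

namespace RtP

/-- the keys match the tile `(τ, l, b)` and the tile is the tile of all its squares -/
def Good (N : ℤ) (T : Ty × ℤ × ℤ) : Prop :=
  (∀ i : ℤ, 0 ≤ i → i < wid N T.1 →
    K N T.2.2 (T.2.1 + i) = dn N T.1 i ∧ K N (T.2.2 + hei T.1) (T.2.1 + i) = up N T.1 i) ∧
  (∀ c' r' : ℤ, T.2.1 ≤ c' → c' < T.2.1 + wid N T.1 → T.2.2 ≤ r' → r' < T.2.2 + hei T.1 →
    rt N c' r' = T)

variable {N Z m t r : ℤ}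

theorem em (hZ : per N ∣ Z) (h0 : 0 ≤ m) (h1 : m < 6 * N + 9) : (Z + m) % per N = m := by
  obtain ⟨z, rfl⟩ := hZ
  rw [add_comm, Int.add_mul_emod_self_left]
  exact Int.emod_eq_of_lt h0 h1

theorem K0 (hZ : per N ∣ Z) (h0 : 0 ≤ m) (h1 : m < 6 * N + 9) (hr : r = 4 * t) :
    K N r (Z + m) = if 3 * N + 3 + t ≤ m then dn N Ty.B (m - (3 * N + 3 + t))
      else if m < N + 2 + t then dn N Ty.B (m + (6 * N + 9) - (3 * N + 3 + t)) else 0 := by
  have e1 : r % 4 = 0 := by omega
  have e2 : r / 4 = t := by omega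
  unfold K
  rw [e1, e2, em hZ h0 h1, if_pos rfl]
  rfl

theorem K1 (hZ : per N ∣ Z) (h0 : 0 ≤ m) (h1 : m < 6 * N + 9) (hr : r = 4 * t + 1) :
    K N r (Z + m) = if 3 * N + 3 + t ≤ m then up N Ty.B (m - (3 * N + 3 + t))
      else if m < N + 2 + t then up N Ty.B (m + (6 * N + 9) - (3 * N + 3 + t)) else 0 := by
  have e1 : r % 4 = 1 := by omega
  have e2 : r / 4 = t := by omega
  unfold K
  rw [e1, e2, em hZ h0 h1, if_neg (by norm_num), if_pos rfl]
  rfl

theorem K2 (hZ : per N ∣ Z) (h0 : 0 ≤ m) (h1 : m < 6 * N + 9) (hr : r = 4 * t + 2) :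
    K N r (Z + m) = if m < 4 * N + 5 then dn N Ty.A m else 0 := by
  have e1 : r % 4 = 2 := by omega
  have e2 : r / 4 = t := by omega
  unfold K
  rw [e1, e2, em hZ h0 h1, if_neg (by norm_num), if_neg (by norm_num), if_pos rfl]

theorem K3 (hZ : per N ∣ Z) (h0 : 0 ≤ m) (h1 : m < 6 * N + 9) (hr : r = 4 * t + 3) :
    K N r (Z + m) = if m < 4 * N + 5 then up N Ty.A m else 0 := by
  have e1 : r % 4 = 3 := by omega
  have e2 : r / 4 = t := by omega
  unfold K
  rw [e1, e2, em hZ h0 h1, if_neg (by norm_num), if_neg (by norm_num), if_neg (by norm_num)]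

theorem rt0 (hZ : per N ∣ Z) (h0 : 0 ≤ m) (h1 : m < 6 * N + 9) (hr : r = 4 * t) :
    rt N (Z + m) r = if 3 * N + 3 + t ≤ m then (Ty.B, Z + (3 * N + 3 + t), 4 * t)
      else if m < N + 2 + t then (Ty.B, Z + (3 * N + 3 + t) - (6 * N + 9), 4 * t)
      else if m = 2 * N + 2 then (Ty.D, Z + m, 4 * t - 1)
      else (Ty.E, Z + m, 4 * t - 1) := by
  have e1 : r % 4 = 0 := by omega
  have e2 : r / 4 = t := by omega
  unfold rt
  simp only [e1, e2, em hZ h0 h1]
  rw [if_neg (by norm_num), if_neg (by norm_num), if_pos trivial]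
  have e3 : Z + m - m = Z := by ring
  rw [e3]
  rfl

theorem rt1 (hZ : per N ∣ Z) (h0 : 0 ≤ m) (h1 : m < 6 * N + 9) (hr : r = 4 * t + 1) :
    rt N (Z + m) r =
      if 4 * N + 5 ≤ m then
        if m = 3 * N + 3 + t + (2 * N + 3) then (Ty.S, Z + m, 4 * t + 1)
        else if m = 3 * N + 3 + t + (2 * N + 4) then (Ty.S, Z + m - 1, 4 * t + 1)
        else (Ty.R, Z + m, 4 * t + 1)
      else if 3 * N + 3 + t ≤ m then (Ty.C2, Z + m, 4 * t + 1)
      else if m = N + 1 + t then (Ty.Cb, Z + m, 4 * t + 1)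
      else if m < N + 2 + t then (Ty.C2, Z + m, 4 * t + 1)
      else if m = 2 * N + 2 then (Ty.D, Z + m, 4 * t - 1)
      else (Ty.E, Z + m, 4 * t - 1) := by
  have e1 : r % 4 = 1 := by omega
  have e2 : r / 4 = t := by omega
  unfold rt
  simp only [e1, e2, em hZ h0 h1]
  rw [if_neg (by norm_num), if_pos trivial]
  rfl

theorem rt2 (hZ : per N ∣ Z) (h0 : 0 ≤ m) (h1 : m < 6 * N + 9) (hr : r = 4 * t + 2) :
    rt N (Z + m) r =
      if m < 4 * N + 5 then (Ty.A, Z, 4 * t + 2)
      else if m = 3 * N + 3 + t + (2 * N + 3) then (Ty.S, Z + m, 4 * t + 1)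
      else if m = 3 * N + 3 + t + (2 * N + 4) then (Ty.S, Z + m - 1, 4 * t + 1)
      else (Ty.R, Z + m, 4 * t + 1) := by
  have e1 : r % 4 = 2 := by omega
  have e2 : r / 4 = t := by omega
  unfold rt
  simp only [e1, e2, em hZ h0 h1]
  rw [if_pos trivial]
  have e3 : Z + m - m = Z := by ring
  rw [e3]
  rfl

theorem rt3 (hZ : per N ∣ Z) (h0 : 0 ≤ m) (h1 : m < 6 * N + 9) (hr : r = 4 * t + 3) :
    rt N (Z + m) r =
      if 4 * N + 5 ≤ m then
        if m = 3 * N + 3 + t + (2 * N + 3) then (Ty.S, Z + m, 4 * t + 1)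
        else if m = 3 * N + 3 + t + (2 * N + 4) then (Ty.S, Z + m - 1, 4 * t + 1)
        else (Ty.R, Z + m, 4 * t + 1)
      else if 3 * N + 3 + (t + 1) ≤ m then (Ty.C1, Z + m, 4 * t + 3)
      else if m = 0 then (Ty.Ca, Z + m, 4 * t + 3)
      else if m < N + 2 + (t + 1) then (Ty.C1, Z + m, 4 * t + 3)
      else if m = 2 * N + 2 then (Ty.D, Z + m, 4 * t + 3)
      else (Ty.E, Z + m, 4 * t + 3) := by
  have e1 : r % 4 = 3 := by omega
  have e2 : r / 4 = t := by omega
  unfold rt
  simp only [e1, e2, em hZ h0 h1]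
  rw [if_neg (by norm_num), if_neg (by norm_num), if_neg (by norm_num)]
  rfl

theorem gA (hZ : per N ∣ Z) (hN : 1 ≤ N) : Good N (Ty.A, Z, 4 * t + 2) := by
  constructor
  · intro i h0 h1
    simp only [wid] at h1
    simp only [hei]
    rw [K2 hZ h0 (by omega) rfl, K3 (t := t) hZ h0 (by omega) (by omega), if_pos h1, if_pos h1]
    exact ⟨rfl, rfl⟩
  · intro c' r' h0 h1 h2 h3
    simp only [wid, hei] at h0 h1 h2 h3
    obtain ⟨i, rfl⟩ : ∃ i, c' = Z + i := ⟨c' - Z, by ring⟩
    rw [rt2 (t := t) hZ (by omega) (by omega) (by omega), if_pos (by omega)]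

theorem gB (hZ : per N ∣ Z) (hN : 1 ≤ N) (ht0 : -N < t) (ht1 : t ≤ N) :
    Good N (Ty.B, Z + (3 * N + 3 + t), 4 * t) := by
  have hZ' : per N ∣ Z + (6 * N + 9) := dvd_add hZ (by unfold per; exact dvd_refl _)
  constructor
  · intro i h0 h1
    simp only [wid] at h1
    simp only [hei]
    by_cases hi : 3 * N + 3 + t + i < 6 * N + 9
    · have e : Z + (3 * N + 3 + t) + i = Z + (3 * N + 3 + t + i) := by ring
      rw [e, K0 hZ (by omega) hi rfl, K1 (t := t) hZ (by omega) hi rfl, if_pos (by omega),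
        if_pos (by omega)]
      have e2 : 3 * N + 3 + t + i - (3 * N + 3 + t) = i := by ring
      rw [e2]
      exact ⟨rfl, rfl⟩
    · have e : Z + (3 * N + 3 + t) + i = (Z + (6 * N + 9)) + (3 * N + 3 + t + i - (6 * N + 9)) := by
        ring
      rw [e, K0 hZ' (by omega) (by omega) rfl, K1 (t := t) hZ' (by omega) (by omega) rfl,
        if_neg (by omega), if_pos (by omega), if_neg (by omega), if_pos (by omega)]
      have e2 : 3 * N + 3 + t + i - (6 * N + 9) + (6 * N + 9) - (3 * N + 3 + t) = i := by ring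
      rw [e2]
      exact ⟨rfl, rfl⟩
  · intro c' r' h0 h1 h2 h3
    simp only [wid, hei] at h0 h1 h2 h3
    obtain ⟨i, rfl⟩ : ∃ i, c' = Z + (3 * N + 3 + t) + i := ⟨c' - (Z + (3 * N + 3 + t)), by ring⟩
    by_cases hi : 3 * N + 3 + t + i < 6 * N + 9
    · have e : Z + (3 * N + 3 + t) + i = Z + (3 * N + 3 + t + i) := by ring
      rw [e, rt0 (t := t) hZ (by omega) hi (by omega), if_pos (by omega)]
    · have e : Z + (3 * N + 3 + t) + i = (Z + (6 * N + 9)) + (3 * N + 3 + t + i - (6 * N + 9)) := by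
        ring
      rw [e, rt0 (t := t) hZ' (by omega) (by omega) (by omega), if_neg (by omega),
        if_pos (by omega)]
      have e2 : Z + (6 * N + 9) + (3 * N + 3 + t) - (6 * N + 9) = Z + (3 * N + 3 + t) := by ring
      rw [e2]

theorem gC1 (hZ : per N ∣ Z) (hN : 1 ≤ N) (ht0 : -N ≤ t) (ht1 : t < N) (h0 : 0 < m)
    (h1 : m < 4 * N + 5) (hm : 3 * N + 3 + (t + 1) ≤ m ∨ m < N + 2 + (t + 1)) :
    Good N (Ty.C1, Z + m, 4 * t + 3) := by
  constructor
  · intro i hi0 hi1
    simp only [wid] at hi1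
    obtain rfl : i = 0 := by omega
    simp only [hei, add_zero]
    rw [K3 hZ h0.le (by omega) rfl, K0 (t := t + 1) hZ h0.le (by omega) (by omega)]
    simp only [dn, up]
    constructor <;> split_ifs <;> first | (exfalso; omega) | rfl
  · intro c' r' h2 h3 h4 h5
    simp only [wid, hei] at h2 h3 h4 h5
    obtain rfl : c' = Z + m := by omega
    rw [rt3 (t := t) hZ h0.le (by omega) (by omega)]
    split_ifs <;> first | (exfalso; omega) | rfl

theorem gCa (hZ : per N ∣ Z) (hN : 1 ≤ N) (ht0 : -N ≤ t) (ht1 : t < N) (hm : m = 0) :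
    Good N (Ty.Ca, Z + m, 4 * t + 3) := by
  constructor
  · intro i hi0 hi1
    simp only [wid] at hi1
    obtain rfl : i = 0 := by omega
    simp only [hei, add_zero]
    rw [K3 hZ hm.ge (by omega) rfl, K0 (t := t + 1) hZ hm.ge (by omega) (by omega)]
    simp only [dn, up]
    constructor <;> split_ifs <;> first | (exfalso; omega) | rfl
  · intro c' r' h2 h3 h4 h5
    simp only [wid, hei] at h2 h3 h4 h5
    obtain rfl : c' = Z + m := by omega
    rw [rt3 (t := t) hZ hm.ge (by omega) (by omega)]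
    split_ifs <;> first | (exfalso; omega) | rfl

theorem gC2 (hZ : per N ∣ Z) (hN : 1 ≤ N) (ht0 : -N < t) (ht1 : t ≤ N) (h0 : 0 ≤ m)
    (h1 : m < 4 * N + 5) (hm : 3 * N + 3 + t ≤ m ∨ m < N + 1 + t) :
    Good N (Ty.C2, Z + m, 4 * t + 1) := by
  constructor
  · intro i hi0 hi1
    simp only [wid] at hi1
    obtain rfl : i = 0 := by omega
    simp only [hei, add_zero]
    rw [K1 hZ h0 (by omega) rfl, K2 (t := t) hZ h0 (by omega) (by omega)]
    simp only [dn, up]
    constructor <;> split_ifs <;> first | (exfalso; omega) | rfl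
  · intro c' r' h2 h3 h4 h5
    simp only [wid, hei] at h2 h3 h4 h5
    obtain rfl : c' = Z + m := by omega
    rw [rt1 (t := t) hZ h0 (by omega) (by omega)]
    split_ifs <;> first | (exfalso; omega) | rfl

theorem gCb (hZ : per N ∣ Z) (hN : 1 ≤ N) (ht0 : -N < t) (ht1 : t ≤ N) (hm : m = N + 1 + t) :
    Good N (Ty.Cb, Z + m, 4 * t + 1) := by
  constructor
  · intro i hi0 hi1
    simp only [wid] at hi1
    obtain rfl : i = 0 := by omega
    simp only [hei, add_zero]
    rw [K1 hZ (by omega) (by omega) rfl, K2 (t := t) hZ (by omega) (by omega) (by omega)]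
    simp only [dn, up]
    constructor <;> split_ifs <;> first | (exfalso; omega) | rfl
  · intro c' r' h2 h3 h4 h5
    simp only [wid, hei] at h2 h3 h4 h5
    obtain rfl : c' = Z + m := by omega
    rw [rt1 (t := t) hZ (by omega) (by omega) (by omega)]
    split_ifs <;> first | (exfalso; omega) | rfl

theorem gD (hZ : per N ∣ Z) (hN : 1 ≤ N) (ht0 : -N < t) (ht1 : t ≤ N) (hm : m = 2 * N + 2) :
    Good N (Ty.D, Z + m, 4 * t - 1) := by
  constructor
  · intro i hi0 hi1
    simp only [wid] at hi1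
    obtain rfl : i = 0 := by omega
    simp only [hei, add_zero]
    rw [K3 (t := t - 1) hZ (by omega) (by omega) (by omega),
      K2 (t := t) hZ (by omega) (by omega) (by omega)]
    simp only [dn, up]
    constructor <;> split_ifs <;> first | (exfalso; omega) | rfl
  · intro c' r' h2 h3 h4 h5
    simp only [wid, hei] at h2 h3 h4 h5
    obtain rfl : c' = Z + m := by omega
    have hr : r' = 4 * (t - 1) + 3 ∨ r' = 4 * t ∨ r' = 4 * t + 1 := by omega
    rcases hr with hr | hr | hr
    · rw [rt3 (t := t - 1) hZ (by omega) (by omega) hr]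
      have e : 4 * (t - 1) + 3 = 4 * t - 1 := by ring
      rw [e]
      split_ifs <;> first | (exfalso; omega) | rfl
    · rw [rt0 (t := t) hZ (by omega) (by omega) hr]
      split_ifs <;> first | (exfalso; omega) | rfl
    · rw [rt1 (t := t) hZ (by omega) (by omega) hr]
      split_ifs <;> first | (exfalso; omega) | rfl

theorem gE (hZ : per N ∣ Z) (hN : 1 ≤ N) (ht0 : -N < t) (ht1 : t ≤ N) (hm : m ≠ 2 * N + 2)
    (h0 : N + 2 + t ≤ m) (h1 : m < 3 * N + 3 + t) :
    Good N (Ty.E, Z + m, 4 * t - 1) := by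
  constructor
  · intro i hi0 hi1
    simp only [wid] at hi1
    obtain rfl : i = 0 := by omega
    simp only [hei, add_zero]
    rw [K3 (t := t - 1) hZ (by omega) (by omega) (by omega),
      K2 (t := t) hZ (by omega) (by omega) (by omega)]
    simp only [dn, up]
    constructor <;> split_ifs <;> first | (exfalso; omega) | rfl
  · intro c' r' h2 h3 h4 h5
    simp only [wid, hei] at h2 h3 h4 h5
    obtain rfl : c' = Z + m := by omega
    have hr : r' = 4 * (t - 1) + 3 ∨ r' = 4 * t ∨ r' = 4 * t + 1 := by omega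
    rcases hr with hr | hr | hr
    · rw [rt3 (t := t - 1) hZ (by omega) (by omega) hr]
      have e : 4 * (t - 1) + 3 = 4 * t - 1 := by ring
      rw [e]
      split_ifs <;> first | (exfalso; omega) | rfl
    · rw [rt0 (t := t) hZ (by omega) (by omega) hr]
      split_ifs <;> first | (exfalso; omega) | rfl
    · rw [rt1 (t := t) hZ (by omega) (by omega) hr]
      split_ifs <;> first | (exfalso; omega) | rfl

theorem gR (hZ : per N ∣ Z) (hN : 1 ≤ N) (ht0 : -N ≤ t) (ht1 : t ≤ N) (h0 : 4 * N + 5 ≤ m)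
    (h1 : m < 6 * N + 9) (hm : m ≠ 3 * N + 3 + t + (2 * N + 3))
    (hm' : m ≠ 3 * N + 3 + t + (2 * N + 4)) :
    Good N (Ty.R, Z + m, 4 * t + 1) := by
  constructor
  · intro i hi0 hi1
    simp only [wid] at hi1
    obtain rfl : i = 0 := by omega
    simp only [hei, add_zero]
    rw [K1 (t := t) hZ (by omega) (by omega) (by omega),
      K0 (t := t + 1) hZ (by omega) (by omega) (by omega)]
    simp only [dn, up]
    constructor <;> split_ifs <;> first | (exfalso; omega) | rfl
  · intro c' r' h2 h3 h4 h5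
    simp only [wid, hei] at h2 h3 h4 h5
    obtain rfl : c' = Z + m := by omega
    have hr : r' = 4 * t + 1 ∨ r' = 4 * t + 2 ∨ r' = 4 * t + 3 := by omega
    rcases hr with hr | hr | hr
    · rw [rt1 (t := t) hZ (by omega) (by omega) hr]
      split_ifs <;> first | (exfalso; omega) | rfl
    · rw [rt2 (t := t) hZ (by omega) (by omega) hr]
      split_ifs <;> first | (exfalso; omega) | rfl
    · rw [rt3 (t := t) hZ (by omega) (by omega) hr]
      split_ifs <;> first | (exfalso; omega) | rfl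

theorem gS (hZ : per N ∣ Z) (hN : 1 ≤ N) (ht0 : -N ≤ t) (ht1 : t ≤ N)
    (hm : m = 3 * N + 3 + t + (2 * N + 3)) :
    Good N (Ty.S, Z + m, 4 * t + 1) := by
  constructor
  · intro i hi0 hi1
    simp only [wid] at hi1
    simp only [hei]
    have e : Z + m + i = Z + (m + i) := by ring
    rw [e, K1 (t := t) hZ (by omega) (by omega) (by omega),
      K0 (t := t + 1) hZ (by omega) (by omega) (by omega)]
    simp only [dn, up]
    constructor <;> split_ifs <;> first | (exfalso; omega) | rfl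
  · intro c' r' h2 h3 h4 h5
    simp only [wid, hei] at h2 h3 h4 h5
    have hr : r' = 4 * t + 1 ∨ r' = 4 * t + 2 ∨ r' = 4 * t + 3 := by omega
    have hc : c' = Z + m ∨ c' = Z + (m + 1) := by omega
    rcases hc with rfl | rfl
    · rcases hr with hr | hr | hr
      · rw [rt1 (t := t) hZ (by omega) (by omega) hr]
        split_ifs <;> first | (exfalso; omega) | rfl
      · rw [rt2 (t := t) hZ (by omega) (by omega) hr]
        split_ifs <;> first | (exfalso; omega) | rfl
      · rw [rt3 (t := t) hZ (by omega) (by omega) hr]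
        split_ifs <;> first | (exfalso; omega) | rfl
    · have e : Z + (m + 1) - 1 = Z + m := by ring
      rcases hr with hr | hr | hr
      · rw [rt1 (t := t) hZ (by omega) (by omega) hr, e]
        split_ifs <;> first | (exfalso; omega) | rfl
      · rw [rt2 (t := t) hZ (by omega) (by omega) hr, e]
        split_ifs <;> first | (exfalso; omega) | rfl
      · rw [rt3 (t := t) hZ (by omega) (by omega) hr, e]
        split_ifs <;> first | (exfalso; omega) | rfl

/-- the membership part -/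
def Mem (N c r : ℤ) (T : Ty × ℤ × ℤ) : Prop :=
  T.2.1 ≤ c ∧ c < T.2.1 + wid N T.1 ∧ T.2.2 ≤ r ∧ r < T.2.2 + hei T.1

theorem all (hN : 1 ≤ N) (c r : ℤ) (hr0 : -4 * N + 2 ≤ r) (hr1 : r ≤ 4 * N + 2) :
    Mem N c r (rt N c r) ∧ Good N (rt N c r) := by
  obtain ⟨Z, m, hZ, h0, h1, rfl⟩ : ∃ Z m, per N ∣ Z ∧ 0 ≤ m ∧ m < 6 * N + 9 ∧ c = Z + m := by
    refine ⟨per N * (c / per N), c % per N, dvd_mul_right _ _, Int.emod_nonneg _ ?_, ?_,
      (Int.mul_ediv_add_emod c (per N)).symm⟩
    · unfold per; omega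
    · have : 0 < per N := by unfold per; omega
      exact Int.emod_lt_of_pos _ this
  have hZ' : per N ∣ Z - (6 * N + 9) := dvd_sub hZ (by unfold per; exact dvd_refl _)
  obtain ⟨t, hr⟩ : ∃ t, r = 4 * t ∨ r = 4 * t + 1 ∨ r = 4 * t + 2 ∨ r = 4 * t + 3 :=
    ⟨r / 4, by omega⟩
  rcases hr with rfl | rfl | rfl | rfl
  · rw [rt0 (t := t) hZ h0 h1 rfl]
    split_ifs
    · refine ⟨?_, gB hZ hN (by omega) (by omega)⟩
      simp only [Mem, wid, hei]; omega
    · have e : Z + (3 * N + 3 + t) - (6 * N + 9) = (Z - (6 * N + 9)) + (3 * N + 3 + t) := by ring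
      rw [e]
      refine ⟨?_, gB hZ' hN (by omega) (by omega)⟩
      simp only [Mem, wid, hei]; omega
    · refine ⟨?_, gD hZ hN (by omega) (by omega) (by omega)⟩
      simp only [Mem, wid, hei]; omega
    · refine ⟨?_, gE hZ hN (by omega) (by omega) (by omega) (by omega) (by omega)⟩
      simp only [Mem, wid, hei]; omega
  · rw [rt1 (t := t) hZ h0 h1 rfl]
    split_ifs
    · refine ⟨?_, gS hZ hN (by omega) (by omega) (by omega)⟩
      simp only [Mem, wid, hei]; omega
    · have e : Z + m - 1 = Z + (m - 1) := by ring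
      rw [e]
      refine ⟨?_, gS hZ hN (by omega) (by omega) (by omega)⟩
      simp only [Mem, wid, hei]; omega
    · refine ⟨?_, gR hZ hN (by omega) (by omega) (by omega) (by omega) (by omega) (by omega)⟩
      simp only [Mem, wid, hei]; omega
    · refine ⟨?_, gC2 hZ hN (by omega) (by omega) (by omega) (by omega) (by omega)⟩
      simp only [Mem, wid, hei]; omega
    · refine ⟨?_, gCb hZ hN (by omega) (by omega) (by omega)⟩
      simp only [Mem, wid, hei]; omega
    · refine ⟨?_, gC2 hZ hN (by omega) (by omega) (by omega) (by omega) (by omega)⟩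
      simp only [Mem, wid, hei]; omega
    · refine ⟨?_, gD hZ hN (by omega) (by omega) (by omega)⟩
      simp only [Mem, wid, hei]; omega
    · refine ⟨?_, gE hZ hN (by omega) (by omega) (by omega) (by omega) (by omega)⟩
      simp only [Mem, wid, hei]; omega
  · rw [rt2 (t := t) hZ h0 h1 rfl]
    split_ifs
    · refine ⟨?_, gA hZ hN⟩
      simp only [Mem, wid, hei]; omega
    · refine ⟨?_, gS hZ hN (by omega) (by omega) (by omega)⟩
      simp only [Mem, wid, hei]; omega
    · have e : Z + m - 1 = Z + (m - 1) := by ring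
      rw [e]
      refine ⟨?_, gS hZ hN (by omega) (by omega) (by omega)⟩
      simp only [Mem, wid, hei]; omega
    · refine ⟨?_, gR hZ hN (by omega) (by omega) (by omega) (by omega) (by omega) (by omega)⟩
      simp only [Mem, wid, hei]; omega
  · rw [rt3 (t := t) hZ h0 h1 rfl]
    have e4 : 4 * t + 3 = 4 * (t + 1) - 1 := by ring
    split_ifs
    · refine ⟨?_, gS hZ hN (by omega) (by omega) (by omega)⟩
      simp only [Mem, wid, hei]; omega
    · have e : Z + m - 1 = Z + (m - 1) := by ring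
      rw [e]
      refine ⟨?_, gS hZ hN (by omega) (by omega) (by omega)⟩
      simp only [Mem, wid, hei]; omega
    · refine ⟨?_, gR hZ hN (by omega) (by omega) (by omega) (by omega) (by omega) (by omega)⟩
      simp only [Mem, wid, hei]; omega
    · refine ⟨?_, gC1 hZ hN (by omega) (by omega) (by omega) (by omega) (by omega)⟩
      simp only [Mem, wid, hei]; omega
    · refine ⟨?_, gCa hZ hN (by omega) (by omega) (by omega)⟩
      simp only [Mem, wid, hei]; omega
    · refine ⟨?_, gC1 hZ hN (by omega) (by omega) (by omega) (by omega) (by omega)⟩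
      simp only [Mem, wid, hei]; omega
    · rw [e4]
      refine ⟨?_, gD hZ hN (by omega) (by omega) (by omega)⟩
      simp only [Mem, wid, hei]; omega
    · rw [e4]
      refine ⟨?_, gE hZ hN (by omega) (by omega) (by omega) (by omega) (by omega)⟩
      simp only [Mem, wid, hei]; omega

end RtP

theorem srt : StmRt := by
  intro N hN c r hr0 hr1 τ l b h
  have h1 := RtP.all hN c r hr0 hr1
  rw [h] at h1
  exact ⟨h1.1, h1.2.1, h1.2.2⟩

end Pool.Agent.R175.Sur
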